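import Pool.Agent.WS.AS2

set_option autoImplicit false

namespace Pool.Agent.WS

open Pool.Agent.WB Pool.Agent.WG

theorem steiner_nat {q : ℕ} (hq3 : 3 ≤ q) (n : ℕ)
    (hn : 2 ^ (1768906 * (q ^ 6 * (Nat.log 2 q + 1) ^ 4)) ≤ n)
    (hD : ∀ i < 2, (q - i).choose (2 - i) ∣ (n - i).choose (2 - i)) : PB {q} n := by
  have hn1 : 1 ≤ n := le_trans Nat.one_le_two_pow hn
  obtain ⟨r, hr, hrq⟩ := admissible_gen (by omega : 2 ≤ q) hn1 hD
  have h1 : 2 ^ Nat.log 2 q ≤ q := Nat.pow_log_le_self 2 (by omega)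
  have h2 : q < 2 ^ (Nat.log 2 q + 1) := Nat.lt_pow_succ_log_self (by norm_num) q
  have hl : 1 ≤ Nat.log 2 q := by
    have := Nat.log_pos (b := 2) (by norm_num) (show 2 ≤ q by omega)
    omega
  rw [hr]
  refine G6 (by omega) ?_
  refine R_all hq3 (l := Nat.log 2 q + 1) (by omega) (by simpa using h1) h2 r hrq ?_
  obtain ⟨l, hl'⟩ : ∃ l, l = Nat.log 2 q + 1 := ⟨_, rfl⟩
  rw [← hl'] at hn h2 ⊢
  obtain ⟨Q, hQ⟩ : ∃ Q, Q = q ^ 6 * l ^ 4 := ⟨_, rfl⟩
  rw [← hQ] at hn ⊢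
  by_contra hcon
  push Not at hcon
  have hqQ : q ≤ 2 ^ Q := by
    have h3 : q < 2 ^ q := Nat.lt_two_pow_self
    refine h3.le.trans (Nat.pow_le_pow_right (by norm_num) ?_)
    rw [hQ]
    calc q ≤ q ^ 6 := Nat.le_self_pow (by norm_num) q
      _ ≤ q ^ 6 * l ^ 4 := Nat.le_mul_of_pos_right _ (by
          have : 0 < l := by omega
          positivity)
  have hb : n < 2 ^ (1768906 * Q) := by
    have e : 1768906 * Q = Q + 1768905 * Q := by ring
    rw [e, pow_add]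
    have h8 : (q - 1) * r + 1 < q * (r + 1) := by
      have : (q - 1) * r ≤ q * r := Nat.mul_le_mul_right _ (by omega)
      nlinarith
    calc n = (q - 1) * r + 1 := hr
      _ < q * (r + 1) := h8
      _ ≤ 2 ^ Q * 2 ^ (1768905 * Q) := Nat.mul_le_mul hqQ hcon
  omega

theorem exp_bound {q : ℕ} (hq : 3 ≤ q) (n : ℕ)
    (hn : Real.exp (3 * 10 ^ 7 * q ^ 6 * Real.log q ^ 4) ≤ n) :
    2 ^ (1768906 * (q ^ 6 * (Nat.log 2 q + 1) ^ 4)) ≤ n := by
  obtain ⟨l, hl⟩ : ∃ l, l = Nat.log 2 q + 1 := ⟨_, rfl⟩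
  rw [← hl]
  have hlog2 : 0 < Real.log 2 := Real.log_pos (by norm_num)
  have h1 : 2 ^ Nat.log 2 q ≤ q := Nat.pow_log_le_self 2 (by omega)
  have h1' : (Nat.log 2 q : ℝ) * Real.log 2 ≤ Real.log q := by
    rw [← Real.log_pow]
    exact Real.log_le_log (by positivity) (by exact_mod_cast h1)
  have hl2 : 2 * ((l : ℝ) * Real.log 2) ≤ 3 * Real.log q := by
    rcases Nat.lt_or_ge q 4 with h | h
    · have hq3 : q = 3 := by omega
      have e : Nat.log 2 3 = 1 := by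
        rw [Nat.log_eq_iff (by norm_num)]
        norm_num
      rw [hl, hq3, e]
      have h3 : Real.log ((2:ℝ) ^ 4) ≤ Real.log ((3:ℝ) ^ 3) :=
        Real.log_le_log (by norm_num) (by norm_num)
      rw [Real.log_pow, Real.log_pow] at h3
      push_cast at h3 ⊢
      linarith
    · have h4 : 2 * Real.log 2 ≤ Real.log q := by
        have : Real.log ((2:ℝ) ^ 2) ≤ Real.log q :=
          Real.log_le_log (by norm_num) (by norm_num; exact h)
        rw [Real.log_pow] at this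
        push_cast at this
        exact this
      have : (l : ℝ) = (Nat.log 2 q : ℝ) + 1 := by rw [hl]; push_cast; ring
      rw [this]
      nlinarith
  have hmain : ((2 ^ (1768906 * (q ^ 6 * l ^ 4)) : ℕ) : ℝ) ≤ n := by
    refine le_trans ?_ hn
    rw [← Real.log_le_iff_le_exp (by positivity)]
    push_cast
    rw [Real.log_pow]
    push_cast
    have hL0 : 0 ≤ Real.log q := Real.log_nonneg (by exact_mod_cast (by omega : 1 ≤ q))
    have h5 : (2 * ((l : ℝ) * Real.log 2)) ^ 4 ≤ (3 * Real.log q) ^ 4 :=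
      pow_le_pow_left₀ (by positivity) hl2 4
    have h6 : 16 * ((l:ℝ) ^ 4 * Real.log 2 ^ 4) ≤ 81 * Real.log q ^ 4 := by nlinarith
    have h7 : (0.6931:ℝ) < Real.log 2 := by
      have := Real.log_two_gt_d9; linarith
    have h7' : (0.332:ℝ) ≤ Real.log 2 ^ 3 := by
      have : (0.6931:ℝ) ^ 3 ≤ Real.log 2 ^ 3 := pow_le_pow_left₀ (by norm_num) h7.le 3
      refine le_trans ?_ this
      norm_num
    have h8 : 1768906 * ((l:ℝ) ^ 4 * Real.log 2) ≤ 3 * 10 ^ 7 * Real.log q ^ 4 := by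
      have h9 : 0.332 * (16 * ((l:ℝ) ^ 4 * Real.log 2)) ≤ 81 * Real.log q ^ 4 := by
        refine le_trans ?_ h6
        have hp : 0 ≤ (l:ℝ) ^ 4 * Real.log 2 := by positivity
        have e1 : (l:ℝ) ^ 4 * Real.log 2 ^ 4 = Real.log 2 ^ 3 * ((l:ℝ) ^ 4 * Real.log 2) := by ring
        rw [e1]
        nlinarith [mul_le_mul_of_nonneg_right h7' hp]
      have hL4 : 0 ≤ Real.log q ^ 4 := by positivity
      nlinarith
    have h10 := mul_le_mul_of_nonneg_left h8 (show (0:ℝ) ≤ (q:ℝ) ^ 6 by positivity)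
    nlinarith [h10]
  exact_mod_cast hmain

/-- **Single exponential threshold for every block size.** -/
theorem steiner_single {q : ℕ} (hq : 2 ≤ q) (n : ℕ)
    (hn : Real.exp (3 * 10 ^ 7 * q ^ 6 * Real.log q ^ 4) ≤ n)
    (hD : ∀ i < 2, (q - i).choose (2 - i) ∣ (n - i).choose (2 - i)) :
    ∃ 𝓑 : Finset (Finset (Fin n)), (∀ B ∈ 𝓑, B.card = q) ∧
      ∀ R : Finset (Fin n), R.card = 2 → ∃! B, B ∈ 𝓑 ∧ R ⊆ B := by
  classical
  have hPB : PB {q} n := by
    rcases Nat.lt_or_ge q 3 with h | h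
    · have : q = 2 := by omega
      rw [this]; exact PB_two n
    · exact steiner_nat h n (exp_bound h n hn) hD
  obtain ⟨𝓑, h1, h2⟩ := hPB
  refine ⟨Finset.univ.filter (· ∈ 𝓑), ?_, ?_⟩
  · intro B hB
    rw [Finset.mem_filter] at hB
    exact (h1 B hB.2).1
  · intro R hR
    obtain ⟨x, y, hxy, rfl⟩ := Finset.card_eq_two.1 hR
    obtain ⟨B, ⟨hB, hx, hy⟩, hU⟩ := h2 x y (by simpa using hxy)
    refine ⟨B, ⟨by simpa using hB, ?_⟩, ?_⟩
    · intro z hz
      simp only [Finset.mem_insert, Finset.mem_singleton] at hz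
      rcases hz with rfl | rfl
      · exact hx
      · exact hy
    · rintro C ⟨hC, hRC⟩
      rw [Finset.mem_filter] at hC
      exact hU C ⟨hC.2, hRC (by simp), hRC (by simp)⟩

end Pool.Agent.WS
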