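import Pool.Agent.WG.CYC3

set_option autoImplicit false

/-! Module PBPP: cyclotomic designs for prime powers. -/

namespace Pool.Agent.WS

open Pool.Agent.WB Pool.Agent.WG

theorem PB_primePow {k Q : ℕ} (hk : 2 ≤ k) (hQ : IsPrimePow Q) (hdvd : k * (k - 1) ∣ Q - 1)
    (hbig : 16 * k * (k * (k - 1) / 2) ^ 2 * (k * (k - 1)) ^ (2 * k) < Q) : PB {k} Q := by
  have hne : Nonempty (Fin Q) := ⟨⟨0, hQ.pos⟩⟩
  obtain ⟨hF⟩ : Nonempty (Field (Fin Q)) := by
    rw [Fintype.nonempty_field_iff]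
    simpa using hQ
  have main := @cyc_design (Fin Q) hF _ k hk
  rw [Fintype.card_fin] at main
  exact main hdvd hbig

end Pool.Agent.WS
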