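import Pool.Agent.WS.LAM
import Pool.Agent.WS.PBPP
import Pool.Agent.WB.AS1
import Pool.Agent.WG.BLG
import Pool.Agent.WG.FILL
import Pool.Agent.WG.DEL

set_option autoImplicit false

/-! Module CLS: elements of `R` in every class. -/

namespace Pool.Agent.WS

open Pool.Agent.WB Pool.Agent.WG

theorem class_elt2 {k w2 c q : ℕ} (hk : 3 ≤ k) (hw : 1 ≤ w2) (hkw : k ∣ w2)
    (hc : k ∣ c * (c - 1)) (hq : IsPrimePow q) (hqk : k * (k - 1) ∣ q - 1)
    (hcop : Nat.Coprime q w2)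
    (hqL : 11 * (k * (w2 + 2)) ^ (2 * k) +
      16 * k * (k * (k - 1) / 2) ^ 2 * (k * (k - 1)) ^ (2 * k) + 1 ≤ q) :
    ∃ h, GD k (k - 1) h ∧ h ≡ c [MOD w2] ∧ q ≤ h ∧ h ≤ k * (w2 + 2) * q ^ (k + 2) := by
  have hq1 : 1 ≤ q := hq.pos
  set Q := q ^ (k + 2) with hQ
  have hQ1 : 1 ≤ Q := Nat.one_le_pow _ _ hq1
  have hqQ : q ≤ Q := by
    rw [hQ]
    exact Nat.le_self_pow (by omega) q
  have hQpp : IsPrimePow Q := hq.pow (by omega)
  have hQd : k * (k - 1) ∣ Q - 1 := by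
    refine dvd_trans hqk ?_
    have h := Nat.sub_dvd_pow_sub_pow q 1 (k + 2)
    rwa [one_pow] at h
  obtain ⟨e1, he1⟩ := hQd
  -- Q = 1 + (k - 1) * (k * e1)
  have hQe : Q = (k - 1) * (k * e1) + 1 := by
    have h1 : k * (k - 1) * e1 = (k - 1) * (k * e1) := by ring
    omega
  have hcopQ : Nat.Coprime Q w2 := Nat.Coprime.pow_left _ hcop
  obtain ⟨c', hc1, hc2, hc3⟩ := exists_modEq (a := Q) (m := w2) (by omega) hcopQ
    (c + (w2 - 1) * (k * e1)) 2
  -- the class modulo `w2`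
  have hmod : Q * c' + k * e1 ≡ c [MOD w2] := by
    have h1 : Q * c' + k * e1 ≡ c + (w2 - 1) * (k * e1) + k * e1 [MOD w2] :=
      Nat.ModEq.add_right _ hc3
    have h2 : c + (w2 - 1) * (k * e1) + k * e1 = c + w2 * (k * e1) := by
      obtain ⟨w, rfl⟩ : ∃ w, w2 = w + 1 := ⟨w2 - 1, by omega⟩
      simp only [Nat.add_sub_cancel]
      ring
    rw [h2] at h1
    refine h1.trans ?_
    simp [Nat.ModEq]
  -- the class of `c'` modulo `k`
  have hck : c' ≡ c [MOD k] := by
    have h1 : Q * c' + k * e1 ≡ c [MOD k] := hmod.of_dvd hkw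
    have h2 : Q * c' + k * e1 = c' + k * ((k - 1) * e1 * c' + e1) := by
      rw [hQe]; ring
    rw [h2] at h1
    refine Nat.ModEq.trans ?_ h1
    simp [Nat.ModEq]
  have hcc : k ∣ c' * (c' - 1) := by
    have h3 : c' * c' ≡ c' [MOD k] := by
      have h4 : c * c ≡ c [MOD k] := by
        rcases Nat.eq_zero_or_pos c with h0 | h0
        · rw [h0]
        · have h5 : c * c = c * (c - 1) + c := by
            obtain ⟨d, rfl⟩ : ∃ d, c = d + 1 := ⟨c - 1, by omega⟩
            simp only [Nat.add_sub_cancel]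
            ring
          rw [h5]
          have h6 : c * (c - 1) ≡ 0 [MOD k] := (Nat.modEq_zero_iff_dvd).2 hc
          simpa using h6.add_right c
      exact ((hck.mul hck).trans h4).trans hck.symm
    have h5 : c' * (c' - 1) + c' = c' * c' := by
      obtain ⟨d, rfl⟩ : ∃ d, c' = d + 1 := ⟨c' - 1, by omega⟩
      simp only [Nat.add_sub_cancel]
      ring
    rw [← h5] at h3
    have h6 : c' * (c' - 1) + c' ≡ 0 + c' [MOD k] := by simpa using h3
    exact (Nat.modEq_zero_iff_dvd).1 (Nat.ModEq.add_right_cancel' c' h6)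
  -- `v`
  set v := (k - 1) * c' + 1 with hv
  have hv1 : v - 1 = (k - 1) * c' := by omega
  have hvk : k + 2 ≤ v := by
    have h1 : (k - 1) * 2 ≤ (k - 1) * c' := Nat.mul_le_mul_left _ hc1
    omega
  have hvB : v ≤ k * (w2 + 2) := by
    have h1 : (k - 1) * c' ≤ (k - 1) * (w2 + 1) := Nat.mul_le_mul_left _ (by omega)
    have h2 : (k - 1) * (w2 + 1) ≤ k * (w2 + 1) := Nat.mul_le_mul_right _ (by omega)
    have h3 : k * (w2 + 2) = k * (w2 + 1) + k := by ring
    omega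
  have hvd1 : (k - 1) ∣ (v - 1) := by rw [hv1]; exact Dvd.intro _ rfl
  have hvd2 : k * (k - 1) ∣ v * (v - 1) := by
    rw [hv1]
    have h1 : k ∣ v * c' := by
      have h2 : v * c' + c' * (c' - 1) = k * (c' * c') := by
        obtain ⟨d, hd⟩ : ∃ d, c' = d + 1 := ⟨c' - 1, by omega⟩
        obtain ⟨j, hj⟩ : ∃ j, k = j + 1 := ⟨k - 1, by omega⟩
        rw [hv, hd, hj]
        simp only [Nat.add_sub_cancel]
        ring
      exact (Nat.dvd_add_left hcc).1 (h2 ▸ Dvd.intro _ rfl)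
    obtain ⟨x, hx⟩ := h1
    refine ⟨x, ?_⟩
    calc v * ((k - 1) * c') = (v * c') * (k - 1) := by ring
      _ = k * (k - 1) * x := by rw [hx]; ring
  -- sizes
  set B := k * (w2 + 2) with hB
  have hkB : k + 1 ≤ B := by
    have : k * 2 ≤ B := Nat.mul_le_mul_left _ (by omega)
    omega
  have hB1 : 1 ≤ B := by omega
  have hch : (v - 2).choose (k - 2) ≤ B ^ (k - 2) := by
    refine (Nat.choose_le_pow _ _).trans ?_
    exact Nat.pow_le_pow_left (by omega) _
  have hL : (v - 2).choose (k - 2) * ((v - 2).choose (k - 2) * (10 * v ^ 4) + 1) ≤ q := by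
    have h1 : (v - 2).choose (k - 2) * ((v - 2).choose (k - 2) * (10 * v ^ 4) + 1) ≤
        B ^ (k - 2) * (B ^ (k - 2) * (10 * B ^ 4) + 1) := by
      refine Nat.mul_le_mul hch (Nat.add_le_add_right (Nat.mul_le_mul hch ?_) _)
      exact Nat.mul_le_mul_left _ (Nat.pow_le_pow_left hvB _)
    have h2 : B ^ (k - 2) * (B ^ (k - 2) * (10 * B ^ 4) + 1) = 10 * B ^ (2 * k) + B ^ (k - 2) := by
      have h3 : B ^ (2 * k) = B ^ (k - 2) * B ^ (k - 2) * B ^ 4 := by
        rw [← pow_add, ← pow_add]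
        congr 1
        omega
      rw [h3]; ring
    have h3 : B ^ (k - 2) ≤ B ^ (2 * k) := Nat.pow_le_pow_right hB1 (by omega)
    omega
  obtain ⟨f, hf⟩ := lambda_design (v := v) (k := k) (by omega) hvk hvd1 hvd2 q hL
  have hbl : (k + 1) * (v * q) ^ k < q ^ (k + 2) := by
    have h1 : (k + 1) * v ^ k < q := by
      have h2 : (k + 1) * v ^ k ≤ B * B ^ k := Nat.mul_le_mul hkB (Nat.pow_le_pow_left hvB _)
      have h3 : B * B ^ k = B ^ (k + 1) := by ring
      have h4 : B ^ (k + 1) ≤ B ^ (2 * k) := Nat.pow_le_pow_right hB1 (by omega)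
      omega
    calc (k + 1) * (v * q) ^ k = ((k + 1) * v ^ k) * q ^ k := by rw [mul_pow]; ring
      _ < q * q ^ k := Nat.mul_lt_mul_of_pos_right h1 (Nat.pow_pos hq1)
      _ ≤ q * q ^ k * q := Nat.le_mul_of_pos_right _ hq1
      _ = q ^ (k + 2) := by ring
  have hGD : GD k (q ^ (k + 2)) v := blowup hq (by omega) hbl f hf
  have hPBQ : PB {k} Q := by
    refine PB_primePow (by omega) hQpp ?_ ?_
    · exact ⟨e1, he1⟩
    · refine lt_of_lt_of_le ?_ hqQ
      omega
  have hPB : PB {k} (Q * v) := PB_fill hGD hPBQ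
  have hQv : Q * v = (k - 1) * (Q * c' + k * e1) + 1 := by
    calc Q * v = (k - 1) * (Q * c') + Q := by rw [hv]; ring
      _ = (k - 1) * (Q * c') + ((k - 1) * (k * e1) + 1) := by rw [← hQe]
      _ = (k - 1) * (Q * c' + k * e1) + 1 := by ring
  rw [hQv] at hPB
  refine ⟨Q * c' + k * e1, DEL (by omega) hPB, hmod, ?_, ?_⟩
  · have h1 : Q * 1 ≤ Q * c' := Nat.mul_le_mul_left _ (by omega)
    omega
  · have h1 : Q * c' ≤ Q * (w2 + 1) := Nat.mul_le_mul_left _ (by omega)
    have h2 : k * e1 ≤ Q := by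
      have h3 : 1 * (k * e1) ≤ (k - 1) * (k * e1) := Nat.mul_le_mul_right _ (by omega)
      omega
    calc Q * c' + k * e1 ≤ Q * (w2 + 1) + Q := by omega
      _ = (w2 + 2) * Q := by ring
      _ ≤ B * Q := Nat.mul_le_mul_right _ (by
          rw [hB]
          exact Nat.le_mul_of_pos_left _ (by omega))

end Pool.Agent.WS
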