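import Pool.Agent.WS.CHAIN

set_option autoImplicit false

/-! # KP1: `k+1` groups -/

namespace Pool.Agent.WS

open Pool.Agent.WB

theorem LGD_succ_start {k : ℕ} (hk : 3 ≤ k) : LGD k (k - 1) 1 (k + 1) := by
  classical
  refine ⟨fun B => if B.card = k then 1 else 0, ?_, ?_⟩
  · intro B hB
    have hc : B.card = k := by
      by_contra h
      exact hB (if_neg h)
    refine ⟨hc, ?_⟩
    intro x _ y _ hxy
    rw [MP_adj]
    intro h
    exact hxy (Prod.ext h (Subsingleton.elim _ _))
  · intro x y hxy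
    have hne : x ≠ y := by
      rintro rfl
      exact (SimpleGraph.irrefl _) hxy
    have hcardV : Fintype.card (Fin (k + 1) × Fin 1) = k + 1 := by simp
    rw [← Finset.sum_filter, Finset.sum_const, smul_eq_mul, mul_one]
    have hk1 : ((Finset.univ.erase x).erase y : Finset (Fin (k + 1) × Fin 1)).card = k - 1 := by
      rw [Finset.card_erase_of_mem (Finset.mem_erase.2 ⟨hne.symm, Finset.mem_univ _⟩),
        Finset.card_erase_of_mem (Finset.mem_univ _), Finset.card_univ, hcardV]
      omega
    rw [← hk1]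
    symm
    apply Finset.card_bij (fun z _ => Finset.univ.erase z)
    · intro z hz
      rw [Finset.mem_erase, Finset.mem_erase] at hz
      rw [Finset.mem_filter, Finset.mem_filter]
      refine ⟨⟨Finset.mem_univ _, Finset.mem_erase.2 ⟨fun h => hz.2.1 h.symm,
        Finset.mem_univ _⟩, Finset.mem_erase.2 ⟨fun h => hz.1 h.symm, Finset.mem_univ _⟩⟩, ?_⟩
      rw [Finset.card_erase_of_mem (Finset.mem_univ _), Finset.card_univ, hcardV]
      omega
    · intro a _ b _ hab
      by_contra hne'
      have h1 : a ∈ (Finset.univ.erase b : Finset (Fin (k + 1) × Fin 1)) :=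
        Finset.mem_erase.2 ⟨hne', Finset.mem_univ _⟩
      have hab' : (Finset.univ.erase a : Finset (Fin (k + 1) × Fin 1)) = Finset.univ.erase b :=
        hab
      rw [← hab'] at h1
      exact (Finset.mem_erase.1 h1).1 rfl
    · intro B hB
      rw [Finset.mem_filter, Finset.mem_filter] at hB
      obtain ⟨⟨_, hxB, hyB⟩, hcB⟩ := hB
      have hcc : Bᶜ.card = 1 := by
        rw [Finset.card_compl, hcardV, hcB]; omega
      obtain ⟨z, hz⟩ := Finset.card_eq_one.1 hcc
      have hzB : z ∉ B := by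
        have : z ∈ Bᶜ := by rw [hz]; exact Finset.mem_singleton_self z
        exact Finset.mem_compl.1 this
      have hBz : Finset.univ.erase z = B := by
        have h5 : B = {z}ᶜ := by rw [← hz, compl_compl]
        rw [h5]
        ext t
        simp
      refine ⟨z, ?_, hBz⟩
      rw [Finset.mem_erase, Finset.mem_erase]
      refine ⟨?_, ?_, Finset.mem_univ _⟩
      · rintro rfl; exact hzB hyB
      · rintro rfl; exact hzB hxB

theorem GD_succ {k : ℕ} (hk : 3 ≤ k) :
    ∃ W, 1 ≤ W ∧ GD k W (k + 1) ∧ (∀ p, p.Prime → p ∣ W → p ∣ k - 1) ∧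
      W ≤ ((k + 1) * (k + 1) ^ k) ^ (Nat.log 2 (k - 1)) * (k - 1) ^ (k + 1) := by
  obtain ⟨W, h1, h2, h3, h4⟩ := LGD_chain (by omega) (by omega : 1 ≤ k + 1)
    (by omega : 1 ≤ k - 1) (LGD_succ_start hk)
  rw [one_mul] at h2
  exact ⟨W, h1, h2, h3, h4⟩

end Pool.Agent.WS
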