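import Pool.Agent.WB.XY

set_option autoImplicit false

/-! # WS module XY2: closure from one seed. -/

namespace Pool.Agent.WS

open Pool.Agent.WB

theorem X_big2 (k l T t0 M : ℕ) (X : Set ℕ) (hk : 2 ≤ k) (hl : k ≤ 2 ^ l) (hT : T ≤ t0)
    (ht1 : 1 ≤ t0) (hM : t0 * k ^ (k * l + 1) ≤ k ^ M)
    (h0 : 0 ∈ X) (h1 : 1 ∈ X) (ht0 : t0 ∈ X)
    (hcl : ∀ t ∈ X, T ≤ t → ∀ u ∈ X, u ≤ t → k * t + u ∈ X) :
    ∀ v, v % k ≤ 1 → (k + 3) ^ (3 * (k + M)) ≤ v → v ∈ X := by
  have hk0 : 0 < k := by omega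
  have hpowk : ∀ n, t0 * k ^ n ∈ X ∧ T ≤ t0 * k ^ n := by
    intro n
    have hTn : ∀ n, T ≤ t0 * k ^ n := fun n =>
      hT.trans (Nat.le_mul_of_pos_right _ (Nat.pow_pos hk0))
    refine ⟨?_, hTn n⟩
    induction n with
    | zero => simpa using ht0
    | succ n ih =>
      have h := hcl _ ih (hTn n) 0 h0 (Nat.zero_le _)
      have h2 : t0 * k ^ (n + 1) = k * (t0 * k ^ n) + 0 := by ring
      rw [h2]; exact h
  have hX : ∀ n, ∀ j, t0 * k ^ n * (k + 1) ^ j ∈ X ∧ T ≤ t0 * k ^ n * (k + 1) ^ j := by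
    intro n j
    have hTj : ∀ j, T ≤ t0 * k ^ n * (k + 1) ^ j := fun j =>
      (hpowk n).2.trans (Nat.le_mul_of_pos_right _ (Nat.pow_pos (by omega)))
    refine ⟨?_, hTj j⟩
    induction j with
    | zero => simpa using (hpowk n).1
    | succ j ih =>
      have h := hcl _ ih (hTj j) _ ih le_rfl
      have h2 : t0 * k ^ n * (k + 1) ^ (j + 1) =
          k * (t0 * k ^ n * (k + 1) ^ j) + t0 * k ^ n * (k + 1) ^ j := by ring
      rw [h2]; exact h
  set Y : Set ℕ := {y | T ≤ y ∧ k * y ∈ X ∧ k * y + 1 ∈ X} with hY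
  have hYmem : ∀ n, ∀ j, t0 * k ^ n * (k + 1) ^ j ∈ Y := by
    intro n j
    obtain ⟨h2, h3⟩ := hX n j
    have h4 : 1 ≤ t0 * k ^ n * (k + 1) ^ j :=
      Nat.mul_pos (Nat.mul_pos ht1 (Nat.pow_pos hk0)) (Nat.pow_pos (by omega))
    exact ⟨h3, by simpa using hcl _ h2 h3 0 h0 (Nat.zero_le _), hcl _ h2 h3 1 h1 h4⟩
  have hYstep : ∀ y ∈ Y, ∀ z, (z ∈ Y ∨ z = 0) → z < y →
      k * y + z ∈ Y ∧ k * y + z + 1 ∈ Y := by
    intro y hy z hz hzy
    obtain ⟨hTy, hy0, hy1⟩ := hy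
    have hzX : k * z ∈ X ∧ k * z + 1 ∈ X := by
      rcases hz with hz | rfl
      · exact hz.2
      · simpa using ⟨h0, h1⟩
    have e1 : k * z + k ≤ k * y := by
      calc k * z + k = k * (z + 1) := by ring
        _ ≤ k * y := Nat.mul_le_mul_left _ hzy
    have e2 : y ≤ k * y := Nat.le_mul_of_pos_left _ hk0
    have e3 : T ≤ k * y := hTy.trans e2
    refine ⟨⟨by omega, ?_, ?_⟩, ⟨by omega, ?_, ?_⟩⟩
    · have h := hcl _ hy0 e3 _ hzX.1 (by omega)
      have h2 : k * (k * y + z) = k * (k * y) + k * z := by ring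
      rw [h2]; exact h
    · have h := hcl _ hy0 e3 _ hzX.2 (by omega)
      have h2 : k * (k * y + z) + 1 = k * (k * y) + (k * z + 1) := by ring
      rw [h2]; exact h
    · have h := hcl _ hy1 (by omega) _ hzX.1 (by omega)
      have h2 : k * (k * y + z + 1) = k * (k * y + 1) + k * z := by ring
      rw [h2]; exact h
    · have h := hcl _ hy1 (by omega) _ hzX.2 (by omega)
      have h2 : k * (k * y + z + 1) + 1 = k * (k * y + 1) + (k * z + 1) := by ring
      rw [h2]; exact h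
  set A : ℕ := t0 * k ^ (k * l + 1) with hA
  have hApos : 0 < A := Nat.mul_pos ht1 (Nat.pow_pos hk0)
  have hYcov : ∀ x, A ≤ x → ∃ y ∈ Y, k * y ≤ x ∧ x < (k + 1) * y := by
    intro x hx
    have hq : k ^ (k * l + 1) ≤ x / t0 := by
      rw [Nat.le_div_iff_mul_le ht1, mul_comm]
      exact hx
    have hq0 : x / t0 ≠ 0 := by
      have := Nat.pow_pos (n := k * l + 1) hk0
      omega
    have hlog1' : k ^ Nat.log k (x / t0) ≤ x / t0 := Nat.pow_log_le_self k hq0
    have hlog2' : x / t0 < k ^ (Nat.log k (x / t0) + 1) :=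
      Nat.lt_pow_succ_log_self (by omega) (x / t0)
    have hlogM : k * l + 1 ≤ Nat.log k (x / t0) := (Nat.le_log_iff_pow_le (by omega) hq0).2 hq
    obtain ⟨N, hN⟩ : ∃ N, Nat.log k (x / t0) = N + 1 := ⟨Nat.log k (x / t0) - 1, by omega⟩
    rw [hN] at hlog1' hlog2' hlogM
    have hlog1 : t0 * k ^ (N + 1) ≤ x := by
      rw [mul_comm]
      exact (Nat.le_div_iff_mul_le ht1).1 hlog1'
    have hlog2 : x < t0 * k ^ (N + 1 + 1) := by
      rw [mul_comm]
      exact (Nat.div_lt_iff_lt_mul ht1).1 hlog2'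
    -- the first `j` for which the bound fails
    have hex : ∃ j, j ≤ k * l ∧ x < k * (t0 * k ^ (N - j) * (k + 1) ^ j) := by
      refine ⟨k * l, le_rfl, lt_of_lt_of_le hlog2 ?_⟩
      have h2 : t0 * k ^ (N + 1 + 1) = k * (t0 * k ^ (N - k * l) * (k * k ^ (k * l))) := by
        have h3 : N + 1 + 1 = 1 + ((N - k * l) + (1 + k * l)) := by omega
        rw [h3]
        simp only [pow_add, pow_one]
        ring
      rw [h2]
      exact Nat.mul_le_mul_left _ (Nat.mul_le_mul_left _ (xy_bern' k l (by omega) hl))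
    classical
    obtain ⟨hj1, hj2⟩ := Nat.find_spec hex
    set j := Nat.find hex with hj
    have hjpos : j ≠ 0 := by
      intro h
      rw [h] at hj2
      rw [Nat.sub_zero, pow_zero, mul_one] at hj2
      have h5 : k * (t0 * k ^ N) = t0 * k ^ (N + 1) := by rw [pow_succ]; ring
      omega
    have hprev := Nat.find_min hex (m := j - 1) (by omega)
    have hprev2 : k * (t0 * k ^ (N - (j - 1)) * (k + 1) ^ (j - 1)) ≤ x := by
      by_contra hlt
      exact hprev ⟨by omega, by omega⟩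
    refine ⟨t0 * k ^ (N - (j - 1)) * (k + 1) ^ (j - 1), hYmem _ _, hprev2, ?_⟩
    have h2 : (k + 1) * (t0 * k ^ (N - (j - 1)) * (k + 1) ^ (j - 1)) =
        k * (t0 * k ^ (N - j) * (k + 1) ^ j) := by
      have h3 : N - (j - 1) = (N - j) + 1 := by omega
      have h4 : (k + 1) ^ j = (k + 1) ^ (j - 1) * (k + 1) := by
        rw [← pow_succ]; congr 1; omega
      rw [h3, h4, pow_succ]
      ring
    rw [h2]; exact hj2
  have hfin := Y_lemma k M A Y hk hApos hM hYcov hYstep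
  intro v hv hbig
  have hvk : k * (v / k) + v % k = v := Nat.div_add_mod v k
  have hy : v / k ∈ Y := by
    apply hfin
    rw [Nat.le_div_iff_mul_le hk0]
    refine le_trans ?_ hbig
    calc (k + 3) ^ (2 * (k + M)) * A * k ≤ (k + 3) ^ (2 * (k + M)) * k ^ M * k :=
          Nat.mul_le_mul_right _ (Nat.mul_le_mul_left _ hM)
      _ = (k + 3) ^ (2 * (k + M)) * k ^ (M + 1) := by
          rw [pow_succ]; ring
      _ ≤ (k + 3) ^ (2 * (k + M)) * (k + 3) ^ (k + M) :=
          Nat.mul_le_mul_left _ ((Nat.pow_le_pow_left (by omega) _).trans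
            (Nat.pow_le_pow_right (by omega) (by omega)))
      _ = (k + 3) ^ (3 * (k + M)) := by rw [← pow_add]; congr 1; ring
  have hv01 : v % k = 0 ∨ v % k = 1 := by omega
  rcases hv01 with h | h
  · have : v = k * (v / k) := by omega
    rw [this]; exact hy.2.1
  · have : v = k * (v / k) + 1 := by omega
    rw [this]; exact hy.2.2

end Pool.Agent.WS
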