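import Pool.Agent.WS.RR
import Pool.Agent.WS.KP1
import Pool.Agent.WS.XY2
import Pool.Agent.WS.PBPP
import Pool.Agent.WS.PPOW2
import Pool.Agent.WS.CLS
import Pool.Agent.WG.PPOW

set_option autoImplicit false

namespace Pool.Agent.WS

open Pool.Agent.WB Pool.Agent.WG

/-- `B0` -/
def B0 (k : ℕ) : ℕ := 16 * k * (k * (k - 1) / 2) ^ 2 * (k * (k - 1)) ^ (2 * k) + 1

theorem TDk_big {k l t : ℕ} (hl : k + 1 ≤ 2 ^ l) (hl1 : 1 ≤ l) (ht : 2 ^ (100 * l ^ 2) ≤ t) :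
    TD k t := TD_mono (TD_big' hl hl1 ht) (by omega)

/-- The closure argument in `X_m`. -/
theorem Xm_all {k l K M W m : ℕ} (hk : 3 ≤ k) (hl : k + 1 ≤ 2 ^ l) (hl1 : 1 ≤ l)
    (hPB : PB {k} K) (hK1 : 1 ≤ K) (hTK : 2 ^ (100 * l ^ 2) ≤ K)
    (hM : K * k ^ (k * l + 1) ≤ k ^ M)
    (hW : GD k W (k + 1)) (hW1 : 1 ≤ W) (hWm : W ∣ m) (hm : W * 2 ^ (100 * l ^ 2) ≤ m) (v : ℕ)
    (hv : v % k ≤ 1) (hv2 : (k + 3) ^ (3 * (k + M)) ≤ v) :
    GD k ((k - 1) * m) v := by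
  have hmT : 2 ^ (100 * l ^ 2) ≤ m := by
    refine le_trans ?_ hm
    exact Nat.le_mul_of_pos_left _ hW1
  have hmm : m ≤ (k - 1) * m := Nat.le_mul_of_pos_left _ (by omega)
  have hTD : TD k ((k - 1) * m) := TDk_big hl hl1 (hmT.trans hmm)
  refine X_big2 k l (2 ^ (100 * l ^ 2)) K M {v | GD k ((k - 1) * m) v} (by omega) (by omega) hTK
    hK1 hM (GD_v0 _ _) (GD_v1 _ _) ?_ ?_ v hv hv2
  · -- K
    refine G2 hPB ?_
    intro κ hκ
    rw [Set.mem_singleton_iff] at hκ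
    rw [hκ]; exact hTD
  · intro t ht htT u hu hut
    refine G2 (G7 (TD_big' hl hl1 htT) hut) ?_
    intro κ hκ
    simp only [Set.mem_insert_iff, Set.mem_singleton_iff] at hκ
    rcases hκ with h | h | h | h
    · rw [h]; exact hTD
    · rw [h]
      obtain ⟨m', hm'⟩ := hWm
      have e : (k - 1) * m = W * ((k - 1) * m') := by rw [hm']; ring
      rw [e]
      refine G1 hW (TDk_big hl hl1 ?_)
      have h1 : 2 ^ (100 * l ^ 2) ≤ m' := by
        rw [hm'] at hm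
        exact Nat.le_of_mul_le_mul_left hm hW1
      exact h1.trans (Nat.le_mul_of_pos_left _ (by omega))
    · rw [h]; exact ht
    · rw [h]; exact hu

/-- The final step. -/
theorem R_final {k l m V0 L2 r : ℕ} (hk : 3 ≤ k) (hl : k + 1 ≤ 2 ^ l) (hl1 : 1 ≤ l)
    (hm : GD k (k - 1) m) (hm1 : 2 ^ (100 * l ^ 2) ≤ m) (hV1 : 1 ≤ V0)
    (hX : ∀ v, v % k ≤ 1 → V0 ≤ v → GD k ((k - 1) * m) v)
    (s : ℕ) (hs : s = m * (k * V0) * (m * (k * V0) - 1)) (Ls : ℕ) (hLs1 : 1 ≤ Ls)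
    (hLs : s + 1 ≤ 2 ^ Ls)
    (hL2 : L2 = 11 * (k * (s * m * k + 2)) ^ (2 * k) + B0 k) (U : ℕ)
    (hU : U = k * (s * m * k + 2) *
      (L2 * (k * (k - 1) * (s * m * k) + 1) ^ (k * (k - 1))) ^ (k + 2))
    (hr : k ∣ r * (r - 1))
    (hr2 : U + s * m * k * (V0 + U + 2 ^ (100 * Ls ^ 2)) ≤ r) :
    GD k (k - 1) r := by
  -- multiples of m
  have hR : ∀ v, v % k ≤ 1 → V0 ≤ v → GD k (k - 1) (m * v) := fun v hv hv2 =>
    G3 (hX v hv hv2) hm
  have hVk : V0 ≤ k * V0 := Nat.le_mul_of_pos_left _ (by omega)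
  have hm0 : 1 ≤ m := le_trans Nat.one_le_two_pow hm1
  obtain ⟨g, hg⟩ : ∃ g, m * (k * V0) = g + 1 := ⟨m * (k * V0) - 1, by
    have : 0 < m * (k * V0) := Nat.mul_pos hm0 (by omega)
    omega⟩
  have hsg : s = m * (k * V0 * g) := by
    rw [hs, hg, Nat.add_sub_cancel, ← hg]; ring
  have hmV : m * 3 ≤ m * (k * V0) := Nat.mul_le_mul_left _ (by nlinarith)
  have hgm : m ≤ g := by omega
  have hRs : GD k (k - 1) s := by
    rw [hsg]
    refine hR _ ?_ ?_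
    · rw [mul_assoc]; simp
    · have : k * V0 ≤ k * V0 * g := Nat.le_mul_of_pos_right _ (by omega)
      omega
  have hRs1 : GD k (k - 1) (s + 1) := by
    have h1 : GD k (k - 1) (m * (k * V0)) := hR _ (by simp) hVk
    have h2 : GD k (k - 1) (g + 1) := by rw [← hg]; exact h1
    have h3 : TD k g := TDk_big hl hl1 (hm1.trans hgm)
    have h4 := R_succ h1 h2 h3
    have h5 : g * (m * (k * V0)) + 1 = s + 1 := by rw [hsg]; ring
    rw [h5] at h4
    exact h4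
  have hs0 : 1 ≤ s := by
    rw [hsg]
    exact Nat.mul_pos hm0 (Nat.mul_pos (by omega) (by omega))
  -- the class element
  obtain ⟨w2, hw2⟩ : ∃ w2, w2 = s * m * k := ⟨_, rfl⟩
  have hw21 : 1 ≤ w2 := by
    rw [hw2]; exact Nat.mul_pos (Nat.mul_pos hs0 hm0) (by omega)
  have hkw2 : k ∣ w2 := by rw [hw2]; exact Dvd.intro_left _ rfl
  rw [← hw2] at hL2 hU hr2
  have hN : 1 ≤ k * (k - 1) := Nat.mul_pos (by omega) (by omega)
  have hL21 : 1 ≤ L2 := by rw [hL2]; unfold B0; omega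
  obtain ⟨q, hq, hqN, hqc, hqL, hqU⟩ := exists_primePow2 (k * (k - 1)) w2 L2 hN hw21 hL21
  obtain ⟨c, hc⟩ : ∃ c, c = r % w2 := ⟨_, rfl⟩
  have hkc : k ∣ c * (c - 1) := by
    have h1 : (c : ℤ) ≡ r [ZMOD k] := by
      have h2 : c ≡ r [MOD w2] := by rw [hc]; exact Nat.mod_modEq _ _
      exact (Int.natCast_modEq_iff).2 (h2.of_dvd hkw2)
    have hrZ : (k : ℤ) ∣ (r : ℤ) * (r - 1) := by
      rcases Nat.eq_zero_or_pos r with h0 | h0
      · rw [h0]; simp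
      · have : ((r * (r - 1) : ℕ) : ℤ) = (r : ℤ) * (r - 1) := by
          rw [Nat.cast_mul, Nat.cast_sub h0]; simp
        rw [← this]; exact_mod_cast hr
    have hcZ : (k : ℤ) ∣ (c : ℤ) * (c - 1) := by
      have h6 : (c : ℤ) * (c - 1) ≡ (r : ℤ) * (r - 1) [ZMOD k] := h1.mul (h1.sub_right 1)
      exact (Int.ModEq.dvd_iff h6).2 hrZ
    rcases Nat.eq_zero_or_pos c with h0 | h0
    · rw [h0]; simp
    · have : ((c * (c - 1) : ℕ) : ℤ) = (c : ℤ) * (c - 1) := by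
        rw [Nat.cast_mul, Nat.cast_sub h0]; simp
      rw [← this] at hcZ
      exact_mod_cast hcZ
  obtain ⟨u, hRu, huc, hqu, huU⟩ := class_elt2 hk hw21 hkw2 hkc hq hqN hqc
    (by rw [hL2] at hqL; unfold B0 at hqL; omega)
  have huU' : u ≤ U := by
    refine huU.trans ?_
    rw [hU]
    exact Nat.mul_le_mul_left _ (Nat.pow_le_pow_left hqU _)
  have hur : u ≤ r := by omega
  have hmod : u ≡ r [MOD w2] := by
    refine huc.trans ?_
    rw [hc]; exact Nat.mod_modEq _ _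
  obtain ⟨z, hz⟩ : w2 ∣ r - u := (Nat.modEq_iff_dvd' hur).1 hmod
  have hzbig : V0 + U + 2 ^ (100 * Ls ^ 2) ≤ z := by
    have h1 : w2 * (V0 + U + 2 ^ (100 * Ls ^ 2)) ≤ w2 * z := by
      rw [← hz]; omega
    exact Nat.le_of_mul_le_mul_left h1 hw21
  have hz1 : V0 ≤ z := le_trans (by rw [add_assoc]; exact Nat.le_add_right _ _) hzbig
  have hz2 : U ≤ z := le_trans (by rw [add_right_comm]; exact Nat.le_add_left _ _) hzbig
  have hz3 : 2 ^ (100 * Ls ^ 2) ≤ z := le_trans (Nat.le_add_left _ _) hzbig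
  have hkz : z ≤ k * z := Nat.le_mul_of_pos_left _ (by omega)
  have hmkz : k * z ≤ m * (k * z) := Nat.le_mul_of_pos_left _ hm0
  have hRt : GD k (k - 1) (m * (k * z)) := hR _ (by simp) (hz1.trans hkz)
  have hTD : TD (s + 1) (m * (k * z)) := by
    refine TD_mono (TD_big Ls hLs1 _ (hz3.trans (hkz.trans hmkz))) hLs
  have hend := R_st hRs hRs1 hRt hRu (huU'.trans (hz2.trans (hkz.trans hmkz))) hTD
  have h7 : s * (m * (k * z)) + u = r := by
    have : r = (r - u) + u := by omega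
    rw [this, hz, hw2]; ring
  rw [h7] at hend
  exact hend

end Pool.Agent.WS
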