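import Pool.Agent.WS.AS1

set_option autoImplicit false

namespace Pool.Agent.WS

open Pool.Agent.WB Pool.Agent.WG

theorem p2 {a b c : ℕ} (h : b ≤ c) (ha : a ≤ 2 ^ b) : a ≤ 2 ^ c :=
  ha.trans (Nat.pow_le_pow_right (by norm_num) h)

theorem p2_add {a b c : ℕ} (ha : a ≤ 2 ^ c) (hb : b ≤ 2 ^ c) : a + b ≤ 2 ^ (c + 1) := by
  rw [pow_succ]; omega

theorem p2_mul {a b c d : ℕ} (ha : a ≤ 2 ^ c) (hb : b ≤ 2 ^ d) : a * b ≤ 2 ^ (c + d) := by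
  rw [pow_add]; exact Nat.mul_le_mul ha hb

theorem p2_pow {a c : ℕ} (n : ℕ) (ha : a ≤ 2 ^ c) : a ^ n ≤ 2 ^ (c * n) := by
  rw [pow_mul]; exact Nat.pow_le_pow_left ha n

theorem p2_pow' {a c n d : ℕ} (ha : a ≤ 2 ^ c) (hn : n ≤ d) : a ^ n ≤ 2 ^ (c * d) :=
  (p2_pow n ha).trans (Nat.pow_le_pow_right (by norm_num) (Nat.mul_le_mul_left _ hn))

theorem B0_le {k l : ℕ} (hk : 3 ≤ k) (hl : 2 ≤ l) (h2 : k ≤ 2 ^ l) :
    B0 k ≤ 2 ^ (4 * (k * l ^ 2)) := by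
  unfold B0
  have hkk : k * (k - 1) ≤ 2 ^ (l + l) :=
    (Nat.mul_le_mul_left _ (Nat.sub_le _ _)).trans (p2_mul h2 h2)
  have h3 : (k * (k - 1) / 2) ^ 2 ≤ 2 ^ ((l + l) * 2) :=
    p2_pow 2 ((Nat.div_le_self _ _).trans hkk)
  have h4 : (k * (k - 1)) ^ (2 * k) ≤ 2 ^ ((l + l) * (2 * k)) := p2_pow _ hkk
  have h5 : 16 * k ≤ 2 ^ (4 + l) := p2_mul (by norm_num) h2
  have h6 := p2_mul (p2_mul h5 h3) h4
  obtain ⟨p, hp⟩ : ∃ p, p = k * l := ⟨_, rfl⟩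
  obtain ⟨e, he⟩ : ∃ e, e = k * l ^ 2 := ⟨_, rfl⟩
  have r1 : 2 * p ≤ e := by
    have : e = p * l := by rw [he, hp]; ring
    rw [this]; nlinarith
  have r2 : 3 * l ≤ p := by rw [hp]; exact Nat.mul_le_mul_right _ hk
  have r3 : (l + l) * (2 * k) = 4 * p := by rw [hp]; ring
  rw [r3] at h6
  rw [← he]
  refine p2 ?_ (p2_add h6 (Nat.one_le_two_pow))
  omega

theorem R_all {k l : ℕ} (hk : 3 ≤ k) (hl : 2 ≤ l) (h1 : 2 ^ (l - 1) ≤ k) (h2 : k < 2 ^ l) (r : ℕ)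
    (hr : k ∣ r * (r - 1)) (hr2 : 2 ^ (1768905 * (k ^ 6 * l ^ 4)) ≤ r) : GD k (k - 1) r := by
  -- monomials
  obtain ⟨e1, he1⟩ : ∃ e, e = k * l ^ 2 := ⟨_, rfl⟩
  obtain ⟨e2, he2⟩ : ∃ e, e = k ^ 2 * l ^ 2 := ⟨_, rfl⟩
  obtain ⟨e3, he3⟩ : ∃ e, e = k ^ 3 * l ^ 2 := ⟨_, rfl⟩
  obtain ⟨e4, he4⟩ : ∃ e, e = k ^ 4 * l ^ 2 := ⟨_, rfl⟩
  obtain ⟨e5, he5⟩ : ∃ e, e = k ^ 5 * l ^ 2 := ⟨_, rfl⟩
  obtain ⟨e6, he6⟩ : ∃ e, e = k ^ 6 * l ^ 2 := ⟨_, rfl⟩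
  obtain ⟨f6, hf6⟩ : ∃ e, e = k ^ 6 * l ^ 4 := ⟨_, rfl⟩
  have q2 : e2 = e1 * k := by rw [he1, he2]; ring
  have q3 : e3 = e2 * k := by rw [he2, he3]; ring
  have q4 : e4 = e3 * k := by rw [he3, he4]; ring
  have q5 : e5 = e4 * k := by rw [he4, he5]; ring
  have q6 : e6 = e5 * k := by rw [he5, he6]; ring
  have m2 : 3 * e1 ≤ e2 := by rw [q2]; nlinarith
  have m3 : 3 * e2 ≤ e3 := by rw [q3]; nlinarith
  have m4 : 3 * e3 ≤ e4 := by rw [q4]; nlinarith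
  have m5 : 3 * e4 ≤ e5 := by rw [q5]; nlinarith
  have m6 : 3 * e5 ≤ e6 := by rw [q6]; nlinarith
  have m7 : 4 * e6 ≤ f6 := by
    have : f6 = e6 * l ^ 2 := by rw [hf6, he6]; ring
    rw [this]
    have : 4 ≤ l ^ 2 := by nlinarith
    nlinarith
  have hl6 : 6 * l ≤ e1 := by
    rw [he1]
    have : k * l ^ 2 = (k * l) * l := by ring
    rw [this]
    exact Nat.mul_le_mul_right _ (by nlinarith)
  have he12 : 12 ≤ e1 := by omega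
  have hkl : k ≤ 2 ^ l := h2.le
  have hk1l : k + 1 ≤ 2 ^ l := h2
  have hB0 := B0_le hk hl hkl
  rw [← he1] at hB0
  have hB01 : 1 ≤ B0 k := by unfold B0; omega
  have hT : 2 ^ (100 * l ^ 2) ≤ 2 ^ (34 * e1) := by
    apply Nat.pow_le_pow_right (by norm_num)
    rw [he1]
    have : 3 * l ^ 2 ≤ k * l ^ 2 := Nat.mul_le_mul_right _ hk
    omega
  have hNle : k * (k - 1) ≤ k ^ 2 := by
    rw [pow_two]; exact Nat.mul_le_mul_left _ (Nat.sub_le _ _)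
  have hN1 : k * (k - 1) + 1 ≤ k ^ 2 := by
    obtain ⟨i, hi⟩ : ∃ i, k = i + 1 := ⟨k - 1, by omega⟩
    rw [hi]; simp only [Nat.add_sub_cancel]; nlinarith
  have hN1' : k * (k - 1) + 1 ≤ 2 ^ (2 * l) := by
    refine hN1.trans ?_
    have := p2_pow 2 hkl
    rwa [mul_comm l 2] at this
  have hNpow : (k * (k - 1) + 1) ^ (k * (k - 1)) ≤ 2 ^ e2 := by
    refine (p2_pow' hN1' hNle).trans (Nat.pow_le_pow_right (by norm_num) ?_)
    rw [he2]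
    nlinarith [Nat.mul_le_mul_left (k ^ 2 * l) hl]
  -- K
  obtain ⟨K, hKp, hKd, hKL, hKU⟩ := exists_primePow (k * (k - 1)) (2 ^ (100 * l ^ 2) + B0 k)
    (Nat.mul_pos (by omega) (by omega)) (hB01.trans (Nat.le_add_left _ _))
  have hPB : PB {k} K := by
    refine PB_primePow (by omega) hKp hKd ?_
    have hKB : B0 k ≤ K := (Nat.le_add_left _ _).trans hKL
    unfold B0 at hKB
    omega
  have hKT : 2 ^ (100 * l ^ 2) ≤ K := le_trans (Nat.le_add_right _ _) hKL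
  have hK1 : 1 ≤ K := le_trans Nat.one_le_two_pow hKT
  have hKb : K ≤ 2 ^ (13 * e2) := by
    have h3 : 2 ^ (100 * l ^ 2) + B0 k ≤ 2 ^ (34 * e1 + 1) :=
      p2_add hT (p2 (by omega) hB0)
    exact p2 (by omega) (hKU.trans (p2_mul h3 hNpow))
  -- M
  obtain ⟨M, hM⟩ : ∃ M, M = 27 * (k ^ 2 * l) := ⟨_, rfl⟩
  have h2lk : 2 ^ l ≤ k ^ 2 := by
    calc 2 ^ l ≤ 2 ^ ((l - 1) * 2) := Nat.pow_le_pow_right (by norm_num) (by omega)
      _ = (2 ^ (l - 1)) ^ 2 := by rw [pow_mul]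
      _ ≤ k ^ 2 := Nat.pow_le_pow_left h1 2
  have hKM : K * k ^ (k * l + 1) ≤ k ^ M := by
    have h3 : K ≤ k ^ (26 * (k ^ 2 * l)) := by
      calc K ≤ 2 ^ (13 * e2) := hKb
        _ = (2 ^ l) ^ (13 * (k ^ 2 * l)) := by rw [← pow_mul]; congr 1; rw [he2]; ring
        _ ≤ (k ^ 2) ^ (13 * (k ^ 2 * l)) := Nat.pow_le_pow_left h2lk _
        _ = k ^ (26 * (k ^ 2 * l)) := by rw [← pow_mul]; congr 1; ring
    calc K * k ^ (k * l + 1) ≤ k ^ (26 * (k ^ 2 * l)) * k ^ (k * l + 1) :=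
          Nat.mul_le_mul_right _ h3
      _ = k ^ (26 * (k ^ 2 * l) + (k * l + 1)) := by rw [← pow_add]
      _ ≤ k ^ M := by
          apply Nat.pow_le_pow_right (by omega)
          rw [hM]
          have : k * l + 1 ≤ k ^ 2 * l := by
            have h4 : 3 * (k * l) ≤ k ^ 2 * l := by
              have : k ^ 2 * l = k * (k * l) := by ring
              rw [this]; exact Nat.mul_le_mul_right _ hk
            have h5 : 1 ≤ k * l := Nat.mul_pos (by omega) (by omega)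
            omega
          omega
  -- W
  obtain ⟨W, hW1, hWG, hWp, hWU⟩ := GD_succ hk
  have hWb : W ≤ 2 ^ (2 * e1) := by
    have w1 : (k + 1) * (k + 1) ^ k ≤ 2 ^ (l + l * k) := p2_mul hk1l (p2_pow k hk1l)
    have w2 : Nat.log 2 (k - 1) ≤ l := by
      calc Nat.log 2 (k - 1) ≤ Nat.log 2 (2 ^ l) := Nat.log_mono_right (by omega)
        _ = l := Nat.log_pow (by norm_num) l
    have w3 : (k - 1) ^ (k + 1) ≤ 2 ^ (l * (k + 1)) := p2_pow (k + 1) (by omega)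
    refine p2 ?_ (hWU.trans (p2_mul (p2_pow' w1 w2) w3))
    rw [he1]
    have w4 : 3 * (k + 1) ≤ 4 * k := by omega
    have w5 : 2 * (l ^ 2 + l) ≤ 3 * l ^ 2 := by nlinarith
    have w6 := Nat.mul_le_mul w4 w5
    nlinarith
  -- m
  obtain ⟨w2, hw2⟩ : ∃ w2, w2 = W * k := ⟨_, rfl⟩
  have hw21 : 1 ≤ w2 := by rw [hw2]; exact Nat.mul_pos hW1 (by omega)
  obtain ⟨L1, hL1⟩ : ∃ L1, L1 = 11 * (k * (w2 + 2)) ^ (2 * k) + B0 k + W * 2 ^ (100 * l ^ 2) :=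
    ⟨_, rfl⟩
  have hvm : k * (w2 + 2) ≤ 2 ^ (3 * e1) := by
    have v1 : w2 ≤ 2 ^ (2 * e1 + l) := by rw [hw2]; exact p2_mul hWb hkl
    have v2 : w2 + 2 ≤ 2 ^ (2 * e1 + l + 1) := by
      refine p2_add v1 ?_
      calc 2 = 2 ^ 1 := by norm_num
        _ ≤ 2 ^ (2 * e1 + l) := Nat.pow_le_pow_right (by norm_num) (by omega)
    exact p2 (by omega) (p2_mul hkl v2)
  have hL1b : L1 ≤ 2 ^ (12 * e2 + 2) := by
    have a1 : 11 * (k * (w2 + 2)) ^ (2 * k) ≤ 2 ^ (4 + 3 * e1 * (2 * k)) :=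
      p2_mul (by norm_num) (p2_pow _ hvm)
    have a2 : 3 * e1 * (2 * k) = 6 * e2 := by rw [q2]; ring
    rw [a2] at a1
    have a3 : W * 2 ^ (100 * l ^ 2) ≤ 2 ^ (2 * e1 + 34 * e1) := p2_mul hWb hT
    have a4 : 11 * (k * (w2 + 2)) ^ (2 * k) + B0 k ≤ 2 ^ (12 * e2 + 1) :=
      p2_add (p2 (by omega) a1) (p2 (by omega) hB0)
    rw [hL1]
    exact p2_add a4 (p2 (by omega) a3)
  have hNpos : 1 ≤ k * (k - 1) := Nat.mul_pos (by omega) (by omega)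
  have hL11 : 1 ≤ L1 := by rw [hL1]; omega
  obtain ⟨q1, hq1, hq1N, hq1L, hq1U⟩ := exists_primePow (k * (k - 1)) L1 hNpos hL11
  have hq1b : q1 ≤ 2 ^ (14 * e2) :=
    p2 (by omega) (hq1U.trans (p2_mul hL1b hNpow))
  have hq11 : 1 ≤ q1 := by omega
  have hcop1 : Nat.Coprime q1 w2 := by
    rw [Nat.coprime_iff_gcd_eq_one]
    by_contra hne
    obtain ⟨p, hp, hpd⟩ := Nat.exists_prime_and_dvd hne
    have hpq : p ∣ q1 := hpd.trans (Nat.gcd_dvd_left _ _)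
    have hpw : p ∣ W * k := by rw [← hw2]; exact hpd.trans (Nat.gcd_dvd_right _ _)
    have hpN : p ∣ k * (k - 1) := by
      rcases (hp.dvd_mul).1 hpw with h | h
      · exact Dvd.dvd.mul_left (hWp p hp h) _
      · exact Dvd.dvd.mul_right h _
    have hpq1 : p ∣ q1 - 1 := hpN.trans hq1N
    have : p ∣ 1 := by
      have h3 := Nat.dvd_sub hpq hpq1
      have h4 : q1 - (q1 - 1) = 1 := by omega
      rwa [h4] at h3
    exact hp.one_lt.ne' (Nat.dvd_one.1 this)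
  obtain ⟨m, hRm, hmc, hqm, hmU⟩ := class_elt2 (c := 0) hk hw21 (by rw [hw2]; exact Dvd.intro_left _ rfl)
    (by simp) hq1 hq1N hcop1 (by rw [hL1] at hq1L; unfold B0 at hq1L; omega)
  have hWm : W ∣ m := by
    have : w2 ∣ m := (Nat.modEq_zero_iff_dvd).1 hmc
    exact dvd_trans (by rw [hw2]; exact Dvd.intro _ rfl) this
  have hmT : W * 2 ^ (100 * l ^ 2) ≤ m := by
    refine le_trans ?_ (hq1L.trans hqm)
    rw [hL1]; exact Nat.le_add_left _ _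
  have hmT' : 2 ^ (100 * l ^ 2) ≤ m := by
    refine le_trans ?_ hmT
    exact Nat.le_mul_of_pos_left _ hW1
  have hmb : m ≤ 2 ^ (24 * e3) := by
    refine p2 ?_ (hmU.trans (p2_mul hvm (p2_pow (k + 2) hq1b)))
    have a1 : 14 * e2 * (k + 2) = 14 * e3 + 28 * e2 := by rw [q3]; ring
    rw [a1]; omega
  -- V0
  obtain ⟨V0, hV0⟩ : ∃ V0, V0 = (k + 3) ^ (3 * (k + M)) := ⟨_, rfl⟩
  have hV01 : 1 ≤ V0 := by rw [hV0]; exact Nat.one_le_pow _ _ (by omega)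
  have hV0b : V0 ≤ 2 ^ (123 * e2) := by
    have a1 : k + 3 ≤ 2 ^ (l + 1) := by rw [pow_succ]; omega
    rw [hV0]
    refine p2 ?_ (p2_pow _ a1)
    rw [hM, he2]
    have a2 : 2 * (l + 1) ≤ 3 * l := by omega
    have a3 : 3 * (k + 27 * (k ^ 2 * l)) ≤ 82 * (k ^ 2 * l) := by
      have : 3 * k ≤ k ^ 2 * l := by
        have h4 : k ^ 2 * l = k * (k * l) := by ring
        rw [h4, mul_comm 3 k]
        exact Nat.mul_le_mul_left _ (by nlinarith)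
      omega
    have a4 := Nat.mul_le_mul a2 a3
    nlinarith
  have hX : ∀ v, v % k ≤ 1 → V0 ≤ v → GD k ((k - 1) * m) v := fun v hv hv2 =>
    Xm_all hk hk1l (by omega) hPB hK1 hKT hKM hWG hW1 hWm hmT v hv (by rw [← hV0]; exact hv2)
  -- s
  obtain ⟨s, hs⟩ : ∃ s, s = m * (k * V0) * (m * (k * V0) - 1) := ⟨_, rfl⟩
  have hmkV : m * (k * V0) ≤ 2 ^ (66 * e3) :=
    p2 (by omega) (p2_mul hmb (p2_mul hkl hV0b))
  have hsb : s ≤ 2 ^ (132 * e3) := by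
    rw [hs]
    refine p2 ?_ (p2_mul hmkV ((Nat.sub_le _ _).trans hmkV))
    omega
  have hs1b : s + 1 ≤ 2 ^ (133 * e3) :=
    p2 (by omega) (p2_add hsb Nat.one_le_two_pow)
  have hsmk : s * m * k ≤ 2 ^ (157 * e3) :=
    p2 (by omega) (p2_mul (p2_mul hsb hmb) hkl)
  obtain ⟨w2', hw2'⟩ : ∃ w, w = s * m * k := ⟨_, rfl⟩
  rw [← hw2'] at hsmk
  have hvm' : k * (w2' + 2) ≤ 2 ^ (158 * e3) := by
    have v2 : w2' + 2 ≤ 2 ^ (157 * e3 + 1) := by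
      refine p2_add hsmk ?_
      calc 2 = 2 ^ 1 := by norm_num
        _ ≤ 2 ^ (157 * e3) := Nat.pow_le_pow_right (by norm_num) (by omega)
    exact p2 (by omega) (p2_mul hkl v2)
  obtain ⟨L2, hL2⟩ : ∃ L2, L2 = 11 * (k * (w2' + 2)) ^ (2 * k) + B0 k := ⟨_, rfl⟩
  have hL2b : L2 ≤ 2 ^ (316 * e4 + 5) := by
    have a1 : 11 * (k * (w2' + 2)) ^ (2 * k) ≤ 2 ^ (4 + 158 * e3 * (2 * k)) :=
      p2_mul (by norm_num) (p2_pow _ hvm')
    have a2 : 158 * e3 * (2 * k) = 316 * e4 := by rw [q4]; ring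
    rw [a2] at a1
    rw [hL2]
    exact p2 (by omega) (p2_add a1 (p2 (by omega) hB0))
  have hNw : k * (k - 1) * w2' + 1 ≤ 2 ^ (158 * e3) := by
    have a1 : k * (k - 1) ≤ 2 ^ (2 * l) := by omega
    exact p2 (by omega) (p2_add (p2_mul a1 hsmk) Nat.one_le_two_pow)
  have hNw2 : (k * (k - 1) * w2' + 1) ^ (k * (k - 1)) ≤ 2 ^ (158 * e5) := by
    refine (p2_pow' hNw hNle).trans (Nat.pow_le_pow_right (by norm_num) (le_of_eq ?_))
    rw [q5, q4]; ring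
  have hq2 : L2 * (k * (k - 1) * w2' + 1) ^ (k * (k - 1)) ≤ 2 ^ (264 * e5) :=
    p2 (by omega) (p2_mul hL2b hNw2)
  obtain ⟨U, hU⟩ : ∃ U, U = k * (w2' + 2) *
      (L2 * (k * (k - 1) * w2' + 1) ^ (k * (k - 1))) ^ (k + 2) := ⟨_, rfl⟩
  have hUb : U ≤ 2 ^ (446 * e6) := by
    rw [hU]
    refine p2 ?_ (p2_mul hvm' (p2_pow (k + 2) hq2))
    have a1 : 264 * e5 * (k + 2) = 264 * e6 + 528 * e5 := by rw [q6]; ring
    rw [a1]; omega
  obtain ⟨TS, hTS⟩ : ∃ TS, TS = 2 ^ (100 * (133 * e3) ^ 2) := ⟨_, rfl⟩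
  have hTSb : TS ≤ 2 ^ (1768900 * f6) := by
    rw [hTS]
    apply Nat.pow_le_pow_right (by norm_num)
    apply le_of_eq
    rw [he3, hf6]; ring
  have hfin : U + w2' * (V0 + U + TS) ≤ r := by
    refine le_trans ?_ hr2
    rw [← hf6]
    have a1 : V0 + U ≤ 2 ^ (446 * e6 + 1) := p2_add (p2 (by omega) hV0b) hUb
    have a2 : V0 + U + TS ≤ 2 ^ (1768900 * f6 + 1) := p2_add (p2 (by omega) a1) hTSb
    have a3 := p2_mul hsmk a2
    exact p2 (by omega) (p2_add (p2 (by omega) hUb) a3)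
  rw [hTS] at hfin
  refine R_final hk hk1l (by omega) hRm hmT' hV01 hX s hs (133 * e3) (by omega) hs1b
    (L2 := L2) (by rw [hL2, hw2']) U (by rw [hU, hw2']) hr (by rw [← hw2']; exact hfin)

end Pool.Agent.WS
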