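import Pool.Agent.WS.GB

set_option autoImplicit false

/-! # CHAIN: from an `l`-fold group divisible design to a group divisible design -/

namespace Pool.Agent.WS

open Pool.Agent.WB

theorem LGD_one {k w v : ℕ} (h : LGD k 1 w v) : GD k w v := by
  classical
  obtain ⟨f, h1, h2⟩ := h
  refine ⟨{B | f B ≠ 0}, ?_, ?_⟩
  · intro B hB
    exact ⟨(h1 B hB).1, (h1 B hB).2⟩
  · intro x y hxy
    have hs := h2 x y hxy
    have hne : ∃ B ∈ Finset.univ.filter
        (fun B : Finset (Fin v × Fin w) => x ∈ B ∧ y ∈ B), f B ≠ 0 := by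
      by_contra hcon
      push Not at hcon
      rw [Finset.sum_eq_zero hcon] at hs
      exact absurd hs (by norm_num)
    obtain ⟨B, hB, hfB⟩ := hne
    have hB' := (Finset.mem_filter.1 hB).2
    refine ⟨B, ⟨hfB, hB'.1, hB'.2⟩, ?_⟩
    rintro C ⟨hC, hxC, hyC⟩
    by_contra hCB
    have hCm : C ∈ Finset.univ.filter
        (fun B : Finset (Fin v × Fin w) => x ∈ B ∧ y ∈ B) :=
      Finset.mem_filter.2 ⟨Finset.mem_univ _, hxC, hyC⟩
    have hsub : ({B, C} : Finset (Finset (Fin v × Fin w))) ⊆ Finset.univ.filter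
        (fun B : Finset (Fin v × Fin w) => x ∈ B ∧ y ∈ B) := by
      intro D hD
      rcases Finset.mem_insert.1 hD with rfl | hD
      · exact hB
      · rw [Finset.mem_singleton.1 hD]; exact hCm
    have hle := Finset.sum_le_sum_of_subset (f := f) hsub
    rw [Finset.sum_pair (fun h => hCB h.symm), hs] at hle
    have hb : 1 ≤ f B := Nat.one_le_iff_ne_zero.2 hfB
    have hc : 1 ≤ f C := Nat.one_le_iff_ne_zero.2 hC
    omega

theorem LGD_chain {k v l w : ℕ} (hk : 2 ≤ k) (hv : 1 ≤ v) (hl : 1 ≤ l) (h : LGD k l w v) :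
    ∃ W, 1 ≤ W ∧ GD k (w * W) v ∧ (∀ p, p.Prime → p ∣ W → p ∣ l) ∧
      W ≤ ((k + 1) * v ^ k) ^ (Nat.log 2 l) * l ^ (k + 1) := by
  induction l using Nat.strong_induction_on generalizing w with
  | _ l ih =>
    rcases Nat.eq_or_lt_of_le hl with h1 | h1
    · subst h1
      refine ⟨1, le_rfl, ?_, ?_, ?_⟩
      · rw [mul_one]; exact LGD_one h
      · intro p _ hp; exact hp
      · simp
    · have hp : (Nat.minFac l).Prime := Nat.minFac_prime (by omega)
      obtain ⟨μ, hμ⟩ := Nat.minFac_dvd l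
      set p := Nat.minFac l with hpdef
      have hp2 : 2 ≤ p := hp.two_le
      have hμ1 : 1 ≤ μ := by
        rcases Nat.eq_zero_or_pos μ with h0 | h0
        · rw [h0, mul_zero] at hμ; omega
        · exact h0
      have h2μ : 2 * μ ≤ l := by
        rw [hμ]; exact Nat.mul_le_mul_right μ hp2
      have hμl : μ < l := by omega
      -- the exponent
      have hex : ∃ n, (k + 1) * (v * p) ^ k < p ^ n :=
        ⟨(k + 1) * (v * p) ^ k, Nat.lt_pow_self hp2⟩
      classical
      let n := Nat.find hex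
      have hn : (k + 1) * (v * p) ^ k < p ^ n := Nat.find_spec hex
      have hn0 : n ≠ 0 := by
        intro h0
        rw [h0, pow_zero] at hn
        have : 0 < (k + 1) * (v * p) ^ k :=
          Nat.mul_pos (Nat.succ_pos k) (pow_pos (Nat.mul_pos hv (by omega)) k)
        omega
      obtain ⟨m, hm⟩ := Nat.exists_eq_succ_of_ne_zero hn0
      have hmin : p ^ m ≤ (k + 1) * (v * p) ^ k := by
        have := Nat.find_min hex (m := m) (by change m < n; omega)
        exact not_lt.1 this
      have hpn : p ^ n ≤ (k + 1) * v ^ k * p ^ (k + 1) := by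
        rw [hm, pow_succ]
        calc p ^ m * p ≤ (k + 1) * (v * p) ^ k * p := Nat.mul_le_mul_right p hmin
          _ = (k + 1) * v ^ k * p ^ (k + 1) := by rw [mul_pow, pow_succ]; ring
      have hq : IsPrimePow p := hp.isPrimePow
      have h' : LGD k (p * μ) w v := by rw [← hμ]; exact h
      have hb := LGD_blowup (n := n) hq hk hn h'
      obtain ⟨W', hW1, hGD, hdiv, hWle⟩ := ih μ hμl hμ1 hb
      refine ⟨p ^ n * W', ?_, ?_, ?_, ?_⟩
      · exact Nat.one_le_iff_ne_zero.2
          (Nat.mul_ne_zero (pow_ne_zero _ (by omega)) (by omega))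
      · rw [← mul_assoc]; exact hGD
      · intro r hr hrd
        rcases (Nat.Prime.dvd_mul hr).1 hrd with h3 | h3
        · have h4 : r = p := (Nat.prime_dvd_prime_iff_eq hr hp).1 (hr.dvd_of_dvd_pow h3)
          rw [h4, hpdef]; exact Nat.minFac_dvd l
        · exact (hdiv r hr h3).trans (Dvd.intro_left p hμ.symm)
      · have hlog : Nat.log 2 μ + 1 ≤ Nat.log 2 l := by
          have h3 : Nat.log 2 (μ * 2) = Nat.log 2 μ + 1 :=
            Nat.log_mul_base (by norm_num) (by omega)
          rw [← h3]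
          exact Nat.log_mono_right (by omega)
        have hbase : 1 ≤ (k + 1) * v ^ k :=
          Nat.one_le_iff_ne_zero.2 (Nat.mul_ne_zero (Nat.succ_ne_zero k)
            (pow_ne_zero _ (by omega)))
        calc p ^ n * W' ≤ ((k + 1) * v ^ k * p ^ (k + 1)) *
              (((k + 1) * v ^ k) ^ (Nat.log 2 μ) * μ ^ (k + 1)) := Nat.mul_le_mul hpn hWle
          _ = ((k + 1) * v ^ k) ^ (Nat.log 2 μ + 1) * (p * μ) ^ (k + 1) := by
              rw [mul_pow p μ, pow_succ ((k + 1) * v ^ k) (Nat.log 2 μ)]; ring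
          _ = ((k + 1) * v ^ k) ^ (Nat.log 2 μ + 1) * l ^ (k + 1) := by rw [← hμ]
          _ ≤ ((k + 1) * v ^ k) ^ (Nat.log 2 l) * l ^ (k + 1) :=
              Nat.mul_le_mul_right _ (Nat.pow_le_pow_right hbase hlog)

end Pool.Agent.WS
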