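import Pool.Agent.WG.BLG

set_option autoImplicit false

namespace Pool.Agent.WS

open Pool.Agent.WB Pool.Agent.WG

/-- `μ`-fold decomposition of the edges of `Γ` into cliques of size `k`. -/
def LDec {V : Type} [Fintype V] [DecidableEq V] (k μ : ℕ) (Γ : SimpleGraph V) : Prop :=
  ∃ f : Finset V → ℕ, (∀ B, f B ≠ 0 → B.card = k ∧ Γ.IsClique (B : Set V)) ∧
    ∀ x y, Γ.Adj x y → ∑ B ∈ Finset.univ.filter (fun B : Finset V => x ∈ B ∧ y ∈ B), f B = μ

/-- `μ`-fold group divisible design, `v` groups of size `w`. -/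
def LGD (k μ w v : ℕ) : Prop := LDec k μ (MP (Prod.fst : Fin v × Fin w → Fin v))

/-- Indexed version. -/
def IDec {V : Type} (k μ : ℕ) (Γ : SimpleGraph V) : Prop :=
  ∃ (J : Type) (_ : Finite J) (B : J → Finset V), (∀ j, (B j).card = k ∧ Γ.IsClique (B j : Set V)) ∧
    ∀ x y, Γ.Adj x y → Nat.card {j // x ∈ B j ∧ y ∈ B j} = μ

theorem LDec.toIDec {V : Type} [Fintype V] [DecidableEq V] {k μ : ℕ} {Γ : SimpleGraph V}
    (h : LDec k μ Γ) : IDec k μ Γ := by
  classical
  obtain ⟨f, hf1, hf2⟩ := h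
  refine ⟨Σ B : Finset V, Fin (f B), inferInstance, fun j => j.1, ?_, ?_⟩
  · rintro ⟨B, i⟩
    exact hf1 B (by have := i.2; omega)
  · intro x y hxy
    rw [← hf2 x y hxy]
    have e : {j : Σ B : Finset V, Fin (f B) // x ∈ j.1 ∧ y ∈ j.1} ≃
        Σ B : {B : Finset V // B ∈ Finset.univ.filter (fun B : Finset V => x ∈ B ∧ y ∈ B)},
          Fin (f B.1) :=
      { toFun := fun p => ⟨⟨p.1.1, by simpa using p.2⟩, p.1.2⟩
        invFun := fun p => ⟨⟨p.1.1, p.2⟩, (Finset.mem_filter.1 p.1.2).2⟩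
        left_inv := fun p => rfl
        right_inv := fun p => rfl }
    rw [Nat.card_congr e, Nat.card_eq_fintype_card, Fintype.card_sigma]
    simp only [Fintype.card_fin]
    rw [Finset.sum_coe_sort (Finset.univ.filter (fun B : Finset V => x ∈ B ∧ y ∈ B)) f]

theorem IDec.toLDec {V : Type} [Fintype V] [DecidableEq V] {k μ : ℕ} {Γ : SimpleGraph V}
    (h : IDec k μ Γ) : LDec k μ Γ := by
  classical
  obtain ⟨J, hJ, B, hB1, hB2⟩ := h
  have : Fintype J := Fintype.ofFinite J
  refine ⟨fun C => (Finset.univ.filter (fun j => B j = C)).card, ?_, ?_⟩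
  · intro C hC
    obtain ⟨j, hj⟩ := Finset.card_pos.1 (Nat.pos_of_ne_zero hC)
    rw [Finset.mem_filter] at hj
    rw [← hj.2]
    exact hB1 j
  · intro x y hxy
    rw [← hB2 x y hxy, Nat.card_eq_fintype_card, Fintype.card_subtype]
    have h1 : ∀ j ∈ Finset.univ.filter (fun j => x ∈ B j ∧ y ∈ B j),
        B j ∈ Finset.univ.filter (fun C : Finset V => x ∈ C ∧ y ∈ C) := by
      intro j hj
      simpa using hj
    rw [Finset.card_eq_sum_card_fiberwise h1]
    apply Finset.sum_congr rfl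
    intro C hC
    refine congrArg Finset.card ?_
    ext j
    simp only [Finset.mem_filter, Finset.mem_univ, true_and] at hC ⊢
    constructor
    · intro h; exact ⟨by rw [h]; exact hC, h⟩
    · intro h; exact h.2

/-- Transport. -/
theorem IDec.congr {V W : Type} {k μ : ℕ} {Γ : SimpleGraph V} {H : SimpleGraph W} (e : V ≃ W)
    (he : ∀ x y, Γ.Adj x y ↔ H.Adj (e x) (e y)) (h : IDec k μ Γ) : IDec k μ H := by
  obtain ⟨J, hJ, B, hB1, hB2⟩ := h
  refine ⟨J, hJ, fun j => (B j).map e.toEmbedding, ?_, ?_⟩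
  · intro j
    refine ⟨by rw [Finset.card_map]; exact (hB1 j).1, ?_⟩
    intro a ha b hb hab
    rw [Finset.mem_coe, Finset.mem_map_equiv] at ha hb
    have h1 := (hB1 j).2 (Finset.mem_coe.2 ha) (Finset.mem_coe.2 hb)
      (fun h => hab (e.symm.injective h))
    rw [he] at h1
    simpa using h1
  · intro a b hab
    have h1 : Γ.Adj (e.symm a) (e.symm b) := by rw [he]; simpa using hab
    rw [← hB2 _ _ h1]
    apply Nat.card_congr
    refine Equiv.subtypeEquivRight ?_
    intro j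
    simp only [Finset.mem_map_equiv]

/-- symmetric labels, each used `μ` times -/
theorem gb_labels {P J : Type} [Finite J] [LinearOrder P] (B : J → Finset P) (Γ : SimpleGraph P)
    (F : Type) [Fintype F] [Nonempty F] (μ : ℕ)
    (hB : ∀ x y, Γ.Adj x y → Nat.card {j // x ∈ B j ∧ y ∈ B j} = Fintype.card F * μ) :
    ∃ L : P → P → J → F, (∀ x y p, L x y p = L y x p) ∧
      ∀ x y, Γ.Adj x y → ∀ a : F, Nat.card {j // x ∈ B j ∧ y ∈ B j ∧ L x y j = a} = μ := by
  classical
  have hex : ∀ x y : P, ∃ g : J → F, Γ.Adj x y →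
      ∀ a : F, Nat.card {j // x ∈ B j ∧ y ∈ B j ∧ g j = a} = μ := by
    intro x y
    by_cases hxy : Γ.Adj x y
    · obtain ⟨e⟩ : Nonempty ({j // x ∈ B j ∧ y ∈ B j} ≃ F × Fin μ) := by
        apply Finite.card_eq.1
        rw [hB x y hxy, Nat.card_prod, Nat.card_eq_fintype_card, Nat.card_eq_fintype_card,
          Fintype.card_fin]
      refine ⟨fun j => if h : x ∈ B j ∧ y ∈ B j then (e ⟨j, h⟩).1 else Classical.arbitrary F,
        fun _ a => ?_⟩
      have e2 : {j // x ∈ B j ∧ y ∈ B j ∧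
          (if h : x ∈ B j ∧ y ∈ B j then (e ⟨j, h⟩).1 else Classical.arbitrary F) = a} ≃ Fin μ :=
        { toFun := fun j => (e ⟨j.1, j.2.1, j.2.2.1⟩).2
          invFun := fun i => ⟨(e.symm (a, i)).1, (e.symm (a, i)).2.1, (e.symm (a, i)).2.2, by
            rw [dif_pos (e.symm (a, i)).2]
            simp⟩
          left_inv := by
            rintro ⟨j, h1, h2, h3⟩
            rw [dif_pos ⟨h1, h2⟩] at h3
            apply Subtype.ext
            simp only
            have : (a, (e ⟨j, h1, h2⟩).2) = e ⟨j, h1, h2⟩ := by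
              rw [← h3]
            rw [this, e.symm_apply_apply]
          right_inv := by
            intro i
            have : (⟨(e.symm (a, i)).1, (e.symm (a, i)).2.1, (e.symm (a, i)).2.2⟩ :
              {j // x ∈ B j ∧ y ∈ B j}) = e.symm (a, i) := rfl
            simp only [this, e.apply_symm_apply] }
      rw [Nat.card_congr e2, Nat.card_eq_fintype_card, Fintype.card_fin]
    · exact ⟨fun _ => Classical.arbitrary F, fun h => absurd h hxy⟩
  choose g hg using hex
  refine ⟨fun x y => g (min x y) (max x y), fun x y p => by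
    beta_reduce
    rw [min_comm, max_comm], ?_⟩
  intro x y hxy a
  beta_reduce
  rcases lt_or_gt_of_ne hxy.ne with h | h
  · rw [min_eq_left h.le, max_eq_right h.le]
    exact hg x y hxy a
  · rw [min_eq_right h.le, max_eq_left h.le]
    rw [← hg y x hxy.symm a]
    apply Nat.card_congr
    refine Equiv.subtypeEquivRight ?_
    intro j
    tauto

theorem gb_core (F E : Type) [Field F] [Fintype F] [Field E] [Fintype E] [Algebra F E]
    {v k w μ : ℕ} (α : Fin v → E) (hinj : Function.Injective α)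
    (hα : ∀ S : Finset (Fin v), S.card ≤ k → ∀ i ∈ S, ∀ t : Fin v → F,
        ∑ j ∈ S.erase i, t j • (α i - α j)⁻¹ = 0 → ∀ j ∈ S.erase i, t j = 0)
    (φ : E →ₗ[F] F) (hφ : φ ≠ 0)
    (h : IDec k (Fintype.card F * μ) (MP (Prod.fst : Fin v × Fin w → Fin v))) :
    IDec k μ (MP (fun x : (Fin v × Fin w) × E => x.1.1)) := by
  classical
  obtain ⟨J, hJ, B, hB1, hB2⟩ := h
  -- a linear order on the points
  let P := Fin v × Fin w
  letI : LinearOrder P := LinearOrder.lift' (fun x : P => toLex x) (fun a b h => h)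
  obtain ⟨L, hsym, hL⟩ := gb_labels (P := P) B (MP (Prod.fst : Fin v × Fin w → Fin v)) F μ hB2
  have hfst : ∀ j, ∀ x ∈ B j, ∀ y ∈ B j, x.1 = y.1 → x = y := by
    intro j x hx y hy hxy
    by_contra hne
    exact (hB1 j).2 (Finset.mem_coe.2 hx) (Finset.mem_coe.2 hy) hne hxy
  have hc : ∀ j : J, ∃ c : P → E, ∀ x ∈ B j, ∀ y ∈ B j, x ≠ y →
      φ ((c x - c y) * (α x.1 - α y.1)⁻¹) = L x y j := by
    intro j
    refine labels F E (fun x : P => α x.1) (B j) ?_ φ hφ (fun x y => L x y j)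
      (fun x y => hsym x y j)
    intro x hx t ht y hy
    have hinjB : Set.InjOn (Prod.fst : P → Fin v) (B j : Set P) := fun a ha b hb hab =>
      hfst j a ha b hb hab
    -- the inverse of fst on B j
    obtain ⟨g, hg⟩ : ∃ g : Fin v → P, ∀ z ∈ B j, g z.1 = z := by
      refine ⟨fun i => if h : ∃ z ∈ B j, z.1 = i then h.choose else x, ?_⟩
      intro z hz
      have hex : ∃ z' ∈ B j, z'.1 = z.1 := ⟨z, hz, rfl⟩
      simp only
      rw [dif_pos hex]
      exact hfst j _ hex.choose_spec.1 _ hz hex.choose_spec.2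
    have hS : ((B j).image Prod.fst).card ≤ k := Finset.card_image_le.trans (hB1 j).1.le
    have hx' : x.1 ∈ (B j).image Prod.fst := Finset.mem_image_of_mem _ hx
    have herase : ((B j).image Prod.fst).erase x.1 = ((B j).erase x).image Prod.fst := by
      ext i
      simp only [Finset.mem_erase, Finset.mem_image]
      constructor
      · rintro ⟨h1, z, hz, rfl⟩
        exact ⟨z, ⟨fun h => h1 (by rw [h]), hz⟩, rfl⟩
      · rintro ⟨z, ⟨h1, hz⟩, rfl⟩
        exact ⟨fun h => h1 (hfst j z hz x hx h), z, hz, rfl⟩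
    have hsum : ∑ i ∈ ((B j).image Prod.fst).erase x.1, (t (g i)) • (α x.1 - α i)⁻¹ = 0 := by
      rw [herase, Finset.sum_image]
      · rw [← ht]
        apply Finset.sum_congr rfl
        intro z hz
        rw [hg z (Finset.mem_of_mem_erase hz)]
      · intro a ha b hb hab
        exact hfst j a (Finset.mem_of_mem_erase ha) b (Finset.mem_of_mem_erase hb) hab
    have hres := hα ((B j).image Prod.fst) hS x.1 hx' (fun i => t (g i)) hsum y.1
      (by rw [herase]; exact Finset.mem_image_of_mem _ hy)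
    rwa [hg y (Finset.mem_of_mem_erase hy)] at hres
  choose c hc using hc
  -- the blocks
  let blk : J × {s : E // φ s = 0} × E → Finset ((Fin v × Fin w) × E) := fun p =>
    (B p.1).map ⟨fun x => (x, α x.1 * p.2.1.1 + c p.1 x + p.2.2), fun i j h =>
      congrArg Prod.fst h⟩
  have hmem : ∀ p (x : (Fin v × Fin w) × E), x ∈ blk p ↔
      x.1 ∈ B p.1 ∧ α x.1.1 * p.2.1.1 + c p.1 x.1 + p.2.2 = x.2 := by
    intro p x
    simp only [blk, Finset.mem_map]
    constructor
    · rintro ⟨i, hi, rfl⟩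
      exact ⟨hi, rfl⟩
    · rintro ⟨h1, h2⟩
      exact ⟨x.1, h1, Prod.ext rfl h2⟩
  refine ⟨J × {s : E // φ s = 0} × E, inferInstance, blk, ?_, ?_⟩
  · rintro ⟨j, s, τ⟩
    refine ⟨?_, ?_⟩
    · simp only [blk, Finset.card_map]
      exact (hB1 j).1
    · intro x hx y hy hxy
      rw [Finset.mem_coe, hmem] at hx hy
      rw [MP_adj]
      intro h
      apply hxy
      have h1 : x.1 = y.1 := hfst j _ hx.1 _ hy.1 h
      refine Prod.ext h1 ?_
      rw [← hx.2, ← hy.2, h1]
  · rintro ⟨x, a⟩ ⟨y, b⟩ hxy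
    rw [MP_adj] at hxy
    simp only at hxy
    have hxy' : x ≠ y := fun h => hxy (by rw [h])
    have hd : α x.1 - α y.1 ≠ 0 := sub_ne_zero.2 fun h => hxy (hinj h)
    rw [← hL x y hxy (φ ((a - b) * (α x.1 - α y.1)⁻¹))]
    apply Nat.card_congr
    refine
      { toFun := fun p => ⟨p.1.1, ?_, ?_, ?_⟩
        invFun := fun j => ⟨(j.1,
          ⟨(a - b) * (α x.1 - α y.1)⁻¹ - (c j.1 x - c j.1 y) * (α x.1 - α y.1)⁻¹, ?_⟩,
          a - α x.1 * ((a - b) * (α x.1 - α y.1)⁻¹ - (c j.1 x - c j.1 y) * (α x.1 - α y.1)⁻¹) -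
            c j.1 x), ?_, ?_⟩
        left_inv := ?_
        right_inv := ?_ }
    · exact ((hmem p.1 (x, a)).1 p.2.1).1
    · exact ((hmem p.1 (y, b)).1 p.2.2).1
    · obtain ⟨⟨j, ⟨s, hs⟩, τ⟩, hp1, hp2⟩ := p
      rw [hmem] at hp1 hp2
      obtain ⟨h1, h1'⟩ := hp1
      obtain ⟨h2, h2'⟩ := hp2
      simp only at h1 h1' h2 h2' ⊢
      rw [← hc j x h1 y h2 hxy']
      have e1 : (a - b) * (α x.1 - α y.1)⁻¹ = s + (c j x - c j y) * (α x.1 - α y.1)⁻¹ := by
        rw [← h1', ← h2']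
        field_simp
        ring
      rw [e1, map_add, hs, zero_add]
    · rw [map_sub, hc j.1 x j.2.1 y j.2.2.1 hxy', j.2.2.2, sub_self]
    · rw [hmem]
      refine ⟨j.2.1, ?_⟩
      simp only
      ring
    · rw [hmem]
      refine ⟨j.2.2.1, ?_⟩
      simp only
      have gen : ∀ u z d : E, d ≠ 0 → d * (u * d⁻¹ - z * d⁻¹) = u - z := by
        intro u z d hd'
        rw [mul_sub, mul_comm u, mul_comm z, mul_inv_cancel_left₀ hd', mul_inv_cancel_left₀ hd']
      have e2 := gen (a - b) (c j.1 x - c j.1 y) (α x.1 - α y.1) hd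
      linear_combination -e2
    · rintro ⟨⟨j, ⟨s, hs⟩, τ⟩, hp1, hp2⟩
      rw [hmem] at hp1 hp2
      obtain ⟨h1, h1'⟩ := hp1
      obtain ⟨h2, h2'⟩ := hp2
      simp only at h1 h1' h2 h2'
      have e1 : (a - b) * (α x.1 - α y.1)⁻¹ - (c j x - c j y) * (α x.1 - α y.1)⁻¹ = s := by
        rw [← h1', ← h2']
        field_simp
        ring
      apply Subtype.ext
      simp only
      refine Prod.ext rfl (Prod.ext (Subtype.ext e1) ?_)
      simp only
      rw [e1, ← h1']
      ring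
    · rintro ⟨j, h1, h2, h3⟩
      rfl

theorem LGD_blowup {k q n μ w v : ℕ} (hq : IsPrimePow q) (hk : 2 ≤ k)
    (hn : (k + 1) * (v * q) ^ k < q ^ n) (h : LGD k (q * μ) w v) :
    LGD k μ (w * q ^ n) v := by
  classical
  rcases Nat.eq_zero_or_pos v with rfl | hv
  · exact ⟨fun _ => 0, fun B hB => absurd rfl hB, fun x => x.1.elim0⟩
  have hn0 : n ≠ 0 := by
    rintro rfl
    rw [pow_zero] at hn
    have : 0 < (v * q) ^ k := pow_pos (Nat.mul_pos hv hq.pos) k
    nlinarith
  have hne : Nonempty (Fin q) := ⟨⟨0, hq.pos⟩⟩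
  obtain ⟨hF⟩ : Nonempty (Field (Fin q)) := by
    rw [Fintype.nonempty_field_iff]
    simpa using hq
  obtain ⟨p, hp⟩ := CharP.exists (Fin q)
  have hpp : Fact p.Prime := ⟨CharP.char_is_prime (Fin q) p⟩
  have hnz : NeZero n := ⟨hn0⟩
  have hEc : Nat.card (FiniteField.Extension (Fin q) p n) = q ^ n := by
    rw [FiniteField.natCard_extension, Nat.card_eq_fintype_card, Fintype.card_fin]
  have hEf : Fintype (FiniteField.Extension (Fin q) p n) := Fintype.ofFinite _
  have hEc' : Fintype.card (FiniteField.Extension (Fin q) p n) = q ^ n := by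
    rw [← Nat.card_eq_fintype_card, hEc]
  obtain ⟨α, hinj, hα⟩ := slopes (Fin q) (FiniteField.Extension (Fin q) p n) v k hk
    (by rw [hEc', Fintype.card_fin]; exact hn)
  obtain ⟨φ, hφ⟩ : ∃ φ : FiniteField.Extension (Fin q) p n →ₗ[Fin q] Fin q, φ 1 ≠ 0 := by
    by_contra hcon
    push Not at hcon
    exact one_ne_zero ((Module.forall_dual_apply_eq_zero_iff (Fin q)
      (1 : FiniteField.Extension (Fin q) p n)).1 hcon)
  have hφ0 : φ ≠ 0 := by
    rintro rfl
    exact hφ rfl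
  have main := gb_core (Fin q) (FiniteField.Extension (Fin q) p n) (k := k) (μ := μ) α hinj hα φ
    hφ0 (by rw [Fintype.card_fin]; exact h.toIDec)
  -- relabel
  obtain ⟨e⟩ : Nonempty (Fin w × FiniteField.Extension (Fin q) p n ≃ Fin (w * q ^ n)) := by
    apply Finite.card_eq.1
    rw [Nat.card_prod, hEc, Nat.card_eq_fintype_card, Nat.card_eq_fintype_card, Fintype.card_fin,
      Fintype.card_fin]
  refine IDec.toLDec (IDec.congr ((Equiv.prodAssoc _ _ _).trans
    (Equiv.prodCongr (Equiv.refl _) e)) ?_ main)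
  rintro ⟨⟨x, i⟩, a⟩ ⟨⟨y, j⟩, b⟩
  rw [MP_adj, MP_adj]
  rfl

end Pool.Agent.WS
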