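import Pool.Agent.WG.INT

set_option autoImplicit false

/-! # LAM: `(v,k,λ)`-designs for all large `λ` -/

namespace Pool.Agent.WS

open Pool.Agent.WG

/-- the number of `k`-subsets through two points -/
theorem card_through_pair {v k : ℕ} (hk : 2 ≤ k) {x y : Fin v} (hxy : x ≠ y) :
    ((Finset.univ.powersetCard k).filter
      (fun B : Finset (Fin v) => x ∈ B ∧ y ∈ B)).card = (v - 2).choose (k - 2) := by
  have h3 : (Finset.univ.powersetCard k).filter (fun B : Finset (Fin v) => x ∈ B ∧ y ∈ B) =
      ((Finset.univ \ {x, y} : Finset (Fin v)).powersetCard (k - 2)).image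
        (fun S => S ∪ {x, y}) := by
    ext B
    simp only [Finset.mem_filter, Finset.mem_powersetCard, Finset.subset_univ, true_and,
      Finset.mem_image]
    constructor
    · rintro ⟨hB, hx, hy⟩
      have hsub : ({x, y} : Finset (Fin v)) ⊆ B := by
        intro z hz
        simp only [Finset.mem_insert, Finset.mem_singleton] at hz
        rcases hz with rfl | rfl <;> assumption
      refine ⟨B \ {x, y}, ⟨Finset.sdiff_subset_sdiff (Finset.subset_univ _) (le_refl _), ?_⟩,
        Finset.sdiff_union_of_subset hsub⟩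
      rw [Finset.card_sdiff_of_subset hsub, hB, Finset.card_pair hxy]
    · rintro ⟨S, ⟨hS, hSc⟩, rfl⟩
      have hdis : Disjoint S {x, y} := by
        rw [Finset.disjoint_left]
        intro z hz hz'
        exact (Finset.mem_sdiff.1 (hS hz)).2 hz'
      refine ⟨?_, by simp, by simp⟩
      rw [Finset.card_union_of_disjoint hdis, hSc, Finset.card_pair hxy]
      omega
  rw [h3, Finset.card_image_of_injOn, Finset.card_powersetCard,
    Finset.card_sdiff_of_subset (Finset.subset_univ _), Finset.card_univ, Fintype.card_fin,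
    Finset.card_pair hxy]
  intro S hS T hT hST
  have hS' := (Finset.mem_powersetCard.1 (Finset.mem_coe.1 hS)).1
  have hT' := (Finset.mem_powersetCard.1 (Finset.mem_coe.1 hT)).1
  have key : ∀ U : Finset (Fin v), U ⊆ Finset.univ \ {x, y} → (U ∪ {x, y}) \ {x, y} = U := by
    intro U hU
    rw [Finset.union_sdiff_right]
    apply Finset.sdiff_eq_self_of_disjoint
    rw [Finset.disjoint_left]
    intro z hz hz'
    exact (Finset.mem_sdiff.1 (hU hz)).2 hz'
  rw [← key S hS', ← key T hT']
  exact congrArg (fun U => U \ {x, y}) hST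

theorem lambda_design {v k : ℕ} (hk : 2 ≤ k) (hv : k + 2 ≤ v) (h1 : (k - 1) ∣ (v - 1))
    (h2 : k * (k - 1) ∣ v * (v - 1)) (L : ℕ)
    (hL : (v - 2).choose (k - 2) * ((v - 2).choose (k - 2) * (10 * v ^ 4) + 1) ≤ L) :
    ∃ f : Finset (Fin v) → ℕ, ∀ x y : Fin v, x ≠ y →
      ∑ B ∈ (Finset.univ.powersetCard k).filter (fun B => x ∈ B ∧ y ∈ B), f B = L := by
  obtain ⟨f, hf⟩ := int_design hk hv h1 h2 (10 * v ^ 4) le_rfl
  have hC : 0 < (v - 2).choose (k - 2) := Nat.choose_pos (by omega)
  generalize hm : 10 * v ^ 4 = m at *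
  generalize hCd : (v - 2).choose (k - 2) = C at *
  have hmod : L % C < C := Nat.mod_lt _ hC
  have hdiv : C * m + 1 ≤ L / C := by
    rw [Nat.le_div_iff_mul_le hC, mul_comm]; exact hL
  have hle : (L % C) * m ≤ L / C :=
    ((Nat.mul_le_mul_right m hmod.le).trans (Nat.le_succ _)).trans hdiv
  refine ⟨fun B => (L % C) * f B + (L / C - (L % C) * m), ?_⟩
  intro x y hxy
  rw [Finset.sum_add_distrib, ← Finset.mul_sum, hf x y hxy, Finset.sum_const,
    card_through_pair hk hxy, hCd, smul_eq_mul]
  obtain ⟨t, ht⟩ := Nat.exists_eq_add_of_le hle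
  rw [ht, Nat.add_sub_cancel_left]
  have h5 := Nat.mod_add_div L C
  calc (L % C) * (1 + m * C) + C * t = L % C + C * ((L % C) * m + t) := by ring
    _ = L % C + C * (L / C) := by rw [← ht]
    _ = L := h5

end Pool.Agent.WS
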