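import Pool.Agent.WB.Final
import Pool.Agent.WG.G3P

set_option autoImplicit false

namespace Pool.Agent.WS

open Pool.Agent.WB Pool.Agent.WG

theorem R_succ {k K' g : ℕ} (h1 : GD k (k - 1) K') (h2 : GD k (k - 1) (g + 1)) (hT : TD k g) :
    GD k (k - 1) (g * K' + 1) := G3P (G1 h1 hT) h2

theorem R_st {k s t u : ℕ} (hs : GD k (k - 1) s) (hs1 : GD k (k - 1) (s + 1))
    (ht : GD k (k - 1) t) (hu : GD k (k - 1) u) (hut : u ≤ t) (hT : TD (s + 1) t) :
    GD k (k - 1) (s * t + u) := by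
  refine G2 (G7 hT hut) ?_
  intro κ hκ
  simp only [Set.mem_insert_iff, Set.mem_singleton_iff] at hκ
  rcases hκ with h | h | h | h
  · rw [h]; exact hs
  · rw [h]; exact hs1
  · rw [h]; exact ht
  · rw [h]; exact hu

/-- Admissibility for a general block size. -/
theorem admissible_gen {q n : ℕ} (hq2 : 2 ≤ q) (hn : 1 ≤ n)
    (hD : ∀ i < 2, (q - i).choose (2 - i) ∣ (n - i).choose (2 - i)) :
    ∃ r, n = (q - 1) * r + 1 ∧ q ∣ r * (r - 1) := by
  have h1 := hD 1 (by norm_num)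
  have h0 := hD 0 (by norm_num)
  simp only [Nat.sub_zero, show (2 - 1 : ℕ) = 1 from rfl, Nat.choose_one_right] at h0 h1
  obtain ⟨r, hr⟩ := h1
  have hnr : n = (q - 1) * r + 1 := by omega
  refine ⟨r, hnr, ?_⟩
  rcases Nat.eq_zero_or_pos r with h | hrpos
  · rw [h]; simp
  have hA : q * (q - 1) ∣ n * (n - 1) := by
    have e1 : q.choose 2 * 2 = q * (q - 1) := by
      rw [Nat.choose_two_right]
      exact Nat.div_mul_cancel (Nat.even_mul_pred_self q).two_dvd
    have e2 : n.choose 2 * 2 = n * (n - 1) := by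
      rw [Nat.choose_two_right]
      exact Nat.div_mul_cancel (Nat.even_mul_pred_self n).two_dvd
    rw [← e1, ← e2]
    exact Nat.mul_dvd_mul_right h0 2
  have hB : q ∣ n * r := by
    rw [hr] at hA
    have e : n * ((q - 1) * r) = (n * r) * (q - 1) := by ring
    rw [e] at hA
    exact Nat.dvd_of_mul_dvd_mul_right (by omega) hA
  obtain ⟨j, rfl⟩ : ∃ j, q = j + 1 := ⟨q - 1, by omega⟩
  obtain ⟨i, rfl⟩ : ∃ i, r = i + 1 := ⟨r - 1, by omega⟩
  simp only [Nat.add_sub_cancel] at hnr ⊢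
  have e : (j + 1) * (i + 1) ^ 2 = n * (i + 1) + (i + 1) * i := by
    rw [hnr]; ring
  have hd : (j + 1) ∣ n * (i + 1) + (i + 1) * i := by
    rw [← e]; exact Dvd.intro _ rfl
  exact (Nat.dvd_add_right hB).1 hd

end Pool.Agent.WS
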